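import Mathlib
import Pool.Agent.TH968.UST.Defs

/-!
# MP_688e31_pr: the wired uniform spanning tree of a recurrent unimodular random graph is a graph
factor of iid: definitions and statements of the jobs
-/

namespace Pool.Agent.J4H89.WU

open MeasureTheory Filter Topology
open Pool.Agent.TH968.UST
open scoped ENNReal unitInterval

/-! ### Graphs -/

/-- The vertex set of the connected component of `x`. -/
def comp (G : SimpleGraph ℕ) (x : ℕ) : Set ℕ := {y | G.Reachable x y}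

/-- The component of `x` is locally finite. -/
def LocFin (G : SimpleGraph ℕ) (x : ℕ) : Prop := ∀ y ∈ comp G x, (G.neighborSet y).Finite

/-- `φ` restricts to a graph isomorphism from the component of `x` in `G` onto the component of
`φ x` in `G'`. -/
def CIso (G G' : SimpleGraph ℕ) (x : ℕ) (φ : ℕ → ℕ) : Prop :=
  Set.BijOn φ (comp G x) (comp G' (φ x)) ∧
    ∀ y ∈ comp G x, ∀ z ∈ comp G x, (G'.Adj (φ y) (φ z) ↔ G.Adj y z)

/-- Simple random walk started at `x` returns to `x` almost surely (no condition if `x` is an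
isolated vertex). -/
def RecAt (G : SimpleGraph ℕ) (x : ℕ) : Prop :=
  (∃ w, G.Adj x w) → ⨆ n, avg G (hit G x n) x = 1

/-- The mass transport principle for the random rooted graph `(component of ρ in G, ρ)`. -/
def Unimodular {Ω : Type*} [MeasurableSpace Ω] (P : Measure Ω) (G : Ω → SimpleGraph ℕ)
    (ρ : Ω → ℕ) : Prop :=
  ∀ f : SimpleGraph ℕ → ℕ → ℕ → ℝ≥0∞, (∀ x y, Measurable fun G => f G x y) →
    (∀ G G' x φ, CIso G G' x φ → ∀ y ∈ comp G x, ∀ z ∈ comp G x,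
      f G' (φ y) (φ z) = f G y z) →
    ∫⁻ ω, ∑' x : comp (G ω) (ρ ω), f (G ω) (ρ ω) x ∂P =
      ∫⁻ ω, ∑' x : comp (G ω) (ρ ω), f (G ω) x (ρ ω) ∂P

/-! ### Labels -/

/-- iid uniform labels -/
noncomputable def lab : Measure (ℕ → I) := Measure.infinitePi fun _ => (volume : Measure I)

instance : IsProbabilityMeasure lab := by unfold lab; infer_instance

/-- iid uniform sequences of labels: `u v k`, `v` the vertex, `k` the level -/
noncomputable def lab2 : Measure (ℕ → ℕ → I) := Measure.infinitePi fun _ : ℕ => lab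

instance : IsProbabilityMeasure lab2 := by unfold lab2; infer_instance

/-- JOB SPLIT -/
def S_SPLIT : Prop :=
  ∃ f : I → I × (ℕ → I) × (ℕ → I), Measurable f ∧
    lab.map (fun U => ((fun v => (f (U v)).1), (fun v => (f (U v)).2.1),
      fun v => (f (U v)).2.2)) = lab.prod (lab2.prod lab2)

/-! ### Random walk -/

/-- `pk G s k x`: probability that simple random walk from `x` is at `s` at time `k` -/
noncomputable def pk (G : SimpleGraph ℕ) (s : ℕ) : ℕ → ℕ → ℝ≥0∞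
  | 0, x => if x = s then 1 else 0
  | k + 1, x => avg G (pk G s k) x

/-- Cesàro mean of the first `n` laws of the walk from `x`, at `s` -/
noncomputable def ces (G : SimpleGraph ℕ) (n x s : ℕ) : ℝ≥0∞ :=
  (∑ k ∈ Finset.range n, pk G s k x) / n

/-- `|a - b|` -/
noncomputable def ad (a b : ℝ≥0∞) : ℝ≥0∞ := (a - b) + (b - a)

open Classical in
/-- sum over the neighbours `y` of `x` of the `l^1` distance of the Cesàro means at `x` and `y` -/
noncomputable def dl (G : SimpleGraph ℕ) (n x : ℕ) : ℝ≥0∞ :=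
  ∑' y, if G.Adj x y then ∑' s, ad (ces G n x s) (ces G n y s) else 0

/-- summability along the subsequence `ns` -/
def Good (ns : ℕ → ℕ) (G : SimpleGraph ℕ) (x : ℕ) : Prop :=
  ∑' m : ℕ, ((m : ℝ≥0∞) + 1) * min (dl G (ns m) x) 1 ≠ ∞

/-- JOB REC -/
def S_REC : Prop :=
  ∀ (G : SimpleGraph ℕ) (x : ℕ), LocFin G x → RecAt G x →
    Tendsto (fun n => dl G n x) atTop (𝓝 0)

/-- JOB WALK -/
def S_WALK : Prop :=
  (∀ (G : SimpleGraph ℕ) (x n : ℕ), 1 ≤ n → LocFin G x → (∃ w, G.Adj x w) →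
    ∑' s, ces G n x s = 1) ∧
  (∀ (G : SimpleGraph ℕ) (s n : ℕ), LocFin G s → {y | ces G n y s ≠ 0}.Finite) ∧
  (∀ (G : SimpleGraph ℕ) (n x s : ℕ), ces G n x s ≠ 0 → G.Reachable x s)

/-- JOB MDL (measurability) -/
def S_MDL : Prop :=
  (∀ n x s : ℕ, Measurable fun G : SimpleGraph ℕ => ces G n x s) ∧
  (∀ n x : ℕ, Measurable fun G : SimpleGraph ℕ => dl G n x) ∧
  (∀ x y : ℕ, MeasurableSet {G : SimpleGraph ℕ | G.Reachable x y})

/-- JOB IDL (invariance) -/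
def S_IDL : Prop :=
  ∀ (G G' : SimpleGraph ℕ) (x : ℕ) (φ : ℕ → ℕ), CIso G G' x φ → ∀ n : ℕ, ∀ y ∈ comp G x,
    (∀ z ∈ comp G x, ces G' n (φ y) (φ z) = ces G n y z) ∧ dl G' n (φ y) = dl G n y

/-- JOB GOOD (from REC, MDL, IDL) -/
def S_GOOD.{w} : Prop :=
  ∀ (Ω : Type w) [MeasurableSpace Ω] (P : Measure Ω) [IsProbabilityMeasure P]
    (G : Ω → SimpleGraph ℕ) (ρ : Ω → ℕ), Measurable G → Measurable ρ →
    (∀ᵐ ω ∂P, LocFin (G ω) (ρ ω)) → Unimodular P G ρ → (∀ᵐ ω ∂P, RecAt (G ω) (ρ ω)) →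
    ∃ ns : ℕ → ℕ, (∀ m, 1 ≤ ns m) ∧ ∀ᵐ ω ∂P, ∀ x ∈ comp (G ω) (ρ ω), Good ns (G ω) x

/-! ### The partitions -/

/-- the vertices which capture `x` at level `m` -/
def cap (ns : ℕ → ℕ) (G : SimpleGraph ℕ) (θ : ℕ → ℕ → I) (m x : ℕ) : Set ℕ :=
  {s | ENNReal.ofReal (θ s m : ℝ) < ((m : ℝ≥0∞) + 1) * ces G (ns m) x s}

/-- `x` and `y` are not separated at level `m` -/
def same (ns : ℕ → ℕ) (G : SimpleGraph ℕ) (θ : ℕ → ℕ → I) (m x y : ℕ) : Prop :=
  x = y ∨ (cap ns G θ m x = cap ns G θ m y ∧ (cap ns G θ m x).Nonempty)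

/-- the vertices which are not separated from `x` from level `k` on -/
def cellSet (ns : ℕ → ℕ) (G : SimpleGraph ℕ) (θ : ℕ → ℕ → I) (k x : ℕ) : Set ℕ :=
  {y | ∀ m ≥ k, same ns G θ m x y}

open Classical in
/-- the cell of `x` in the `k`-th partition -/
noncomputable def cell (ns : ℕ → ℕ) (G : SimpleGraph ℕ) (θ : ℕ → ℕ → I) : ℕ → ℕ → Finset ℕ
  | 0, x => {x}
  | k + 1, x => if h : (cellSet ns G θ k x).Finite then h.toFinset else {x}

/-- increasing sequence of partitions of `K` into finite cells which finally joins the two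
endpoints of every edge -/
structure Tower (G : SimpleGraph ℕ) (K : Set ℕ) (P : ℕ → ℕ → Finset ℕ) : Prop where
  zero : ∀ x ∈ K, P 0 x = {x}
  self : ∀ k, ∀ x ∈ K, x ∈ P k x
  sub : ∀ k, ∀ x ∈ K, (P k x : Set ℕ) ⊆ K
  eq : ∀ k, ∀ x ∈ K, ∀ y ∈ P k x, P k y = P k x
  mono : ∀ k, ∀ x ∈ K, P k x ⊆ P (k + 1) x
  exh : ∀ x ∈ K, ∀ y ∈ K, G.Adj x y → ∃ k, y ∈ P k x

/-- JOB CUT -/
def S_CUT : Prop :=
  ∀ (a b : ℕ → ℝ≥0∞) (L : ℝ), 0 ≤ L → ∑' s, a s = ENNReal.ofReal L →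
    lab {θ : ℕ → I | ¬ ({s | ENNReal.ofReal (θ s : ℝ) < a s} =
        {s | ENNReal.ofReal (θ s : ℝ) < b s} ∧
        {s | ENNReal.ofReal (θ s : ℝ) < a s}.Nonempty)} ≤
      ENNReal.ofReal (Real.exp (-L)) + ∑' s, ad (a s) (b s)

/-- JOB TOW (from WALK, CUT) -/
def S_TOW : Prop :=
  ∀ ns : ℕ → ℕ, (∀ m, 1 ≤ ns m) → ∀ (G : SimpleGraph ℕ) (x0 : ℕ), LocFin G x0 →
    (∀ x ∈ comp G x0, Good ns G x) →
    ∀ᵐ θ ∂lab2, Tower G (comp G x0) (cell ns G θ)

/-! ### Spanning trees of finite pieces -/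

open Classical in
/-- the edges of `E` with an endpoint in `C` -/
noncomputable def tch (E : Finset (Sym2 ℕ)) (C : Finset ℕ) : Finset (Sym2 ℕ) :=
  E.filter fun e => ∃ v ∈ C, v ∈ e

open Classical in
/-- the edges of `E` with both endpoints in `C` -/
noncomputable def inn (E : Finset (Sym2 ℕ)) (C : Finset ℕ) : Finset (Sym2 ℕ) :=
  E.filter fun e => ∀ v ∈ e, v ∈ C

open Classical in
/-- the edges of `G` which touch `C` -/
noncomputable def te (G : SimpleGraph ℕ) (C : Finset ℕ) : Finset (Sym2 ℕ) :=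
  if h : (touch G C).Finite then h.toFinset else ∅

/-- For the wired uniform spanning tree `T` of `C`: the probability that the part of `T` inside
`C` is `S`. -/
noncomputable def mu (E : Finset (Sym2 ℕ)) (C : Finset ℕ) (S : Finset (Sym2 ℕ)) : ℝ :=
  (((trees (wired C) (tch E C)).filter fun T => T ∩ inn E C = S).card : ℝ) /
    ((trees (wired C) (tch E C)).card : ℝ)

/-- independent copies in the members of `Q` -/
noncomputable def nu (E : Finset (Sym2 ℕ)) (Q : Finset (Finset ℕ)) (S : Finset (Sym2 ℕ)) : ℝ :=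
  if S ⊆ Q.biUnion (inn E) then ∏ B ∈ Q, mu E B (S ∩ inn E B) else 0

/-- `Q` is a partition of `C` -/
def IsPart (C : Finset ℕ) (Q : Finset (Finset ℕ)) : Prop :=
  Q.biUnion id = C ∧ ∀ B ∈ Q, ∀ B' ∈ Q, B ≠ B' → Disjoint B B'

/-- JOB DOM (stochastic domination, from the library's `dom` and `RM`) -/
def S_DOM : Prop :=
  ∀ (E : Finset (Sym2 ℕ)) (C : Finset ℕ) (Q : Finset (Finset ℕ)), IsPart C Q →
    ∀ g : Finset (Sym2 ℕ) → ℝ, (∀ S T, S ⊆ T → g S ≤ g T) →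
      ∑ S ∈ (inn E C).powerset, nu E Q S * g S ≤ ∑ S ∈ (inn E C).powerset, mu E C S * g S

/-- JOB STR (Strassen's theorem with integer weights, from Hall's theorem) -/
def S_STR : Prop :=
  ∀ (M : Finset (Sym2 ℕ)) (a b : Finset (Sym2 ℕ) → ℕ),
    (∑ S ∈ M.powerset, a S = ∑ S ∈ M.powerset, b S) →
    (∀ U ⊆ M.powerset, (∀ S ∈ U, ∀ T ∈ M.powerset, S ⊆ T → T ∈ U) →
      ∑ S ∈ U, a S ≤ ∑ S ∈ U, b S) →
    ∃ c : Finset (Sym2 ℕ) → Finset (Sym2 ℕ) → ℕ,
      (∀ S ∈ M.powerset, ∑ T ∈ M.powerset, c S T = a S) ∧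
      (∀ T ∈ M.powerset, ∑ S ∈ M.powerset, c S T = b T) ∧
      (∀ S T, c S T ≠ 0 → S ⊆ T)

/-- type of the update rules: edges, cell, subcells, present configuration, uniform label -/
abbrev Rule := Finset (Sym2 ℕ) → Finset ℕ → Finset (Finset ℕ) → Finset (Sym2 ℕ) → I →
  Finset (Sym2 ℕ)

/-- a monotone update rule which carries `nu` to `mu` -/
structure KerSpec (F : Rule) : Prop where
  meas : ∀ E C Q S S', MeasurableSet {u | F E C Q S u = S'}
  sub : ∀ E C Q S u, S ⊆ inn E C → S ⊆ F E C Q S u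
  inn : ∀ E C Q S u, F E C Q S u ⊆ inn E C
  law : ∀ E C Q, IsPart C Q → ∀ S', ∑ S ∈ (WU.inn E C).powerset,
    nu E Q S * (volume {u | F E C Q S u = S'}).toReal = mu E C S'

/-- JOB KER (from DOM, STR) -/
def S_KER : Prop := ∃ F : Rule, KerSpec F

/-! ### The construction -/

/-- all endpoints -/
def hull (E : Finset (Sym2 ℕ)) (C : Finset ℕ) : Finset ℕ := C ∪ E.biUnion Sym2.toFinset

open Classical in
/-- rank of `v` in `A` with respect to the order labels -/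
noncomputable def rk (o : ℕ → I) (A : Finset ℕ) (v : ℕ) : ℕ := (A.filter fun w => o w < o v).card

open Classical in
/-- the label of the vertex of `C` with the smallest order label -/
noncomputable def sel (o : ℕ → I) (u : ℕ → ℕ → I) (C : Finset ℕ) (k : ℕ) : I :=
  (C.filter fun v => ∀ w ∈ C, o v ≤ o w).sup fun v => u v k

open Classical in
/-- one update in the cell `C` -/
noncomputable def upd (F : Rule) (E : Finset (Sym2 ℕ)) (C : Finset ℕ) (Q : Finset (Finset ℕ))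
    (S : Finset (Sym2 ℕ)) (o : ℕ → I) (w : I) : Finset (Sym2 ℕ) :=
  (inn E C).filter fun e =>
    Sym2.map (rk o (hull E C)) e ∈
      F (E.image (Sym2.map (rk o (hull E C)))) (C.image (rk o (hull E C)))
        (Q.image fun B => B.image (rk o (hull E C)))
        (S.image (Sym2.map (rk o (hull E C)))) w

/-- `X F G P o u k x`: the configuration in the cell of `x` at level `k` -/
noncomputable def X (F : Rule) (G : SimpleGraph ℕ) (P : ℕ → ℕ → Finset ℕ) (o : ℕ → I)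
    (u : ℕ → ℕ → I) : ℕ → ℕ → Finset (Sym2 ℕ)
  | 0, _ => ∅
  | k + 1, x => upd F (te G (P (k + 1) x)) (P (k + 1) x) ((P (k + 1) x).image (P k))
      ((P (k + 1) x).biUnion (X F G P o u k)) o (sel o u (P (k + 1) x) k)

/-- the final configuration -/
def Ph (F : Rule) (G : SimpleGraph ℕ) (P : ℕ → ℕ → Finset ℕ) (o : ℕ → I) (u : ℕ → ℕ → I) :
    Set (Sym2 ℕ) :=
  {e | ∃ k, ∃ x ∈ e, e ∈ X F G P o u k x}

/-- JOB TRANS (transport of `mu` and `nu`) -/
def S_TRANS : Prop :=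
  ∀ (E : Finset (Sym2 ℕ)) (C : Finset ℕ) (r : ℕ → ℕ), Set.InjOn r (hull E C : Set ℕ) →
    (∀ S ⊆ E, mu (E.image (Sym2.map r)) (C.image r) (S.image (Sym2.map r)) = mu E C S) ∧
    (∀ Q : Finset (Finset ℕ), (∀ B ∈ Q, B ⊆ C) → ∀ S ⊆ E,
      nu (E.image (Sym2.map r)) (Q.image fun B => B.image r) (S.image (Sym2.map r)) = nu E Q S)

/-- JOB LAW (from TRANS) -/
def S_LAW : Prop :=
  ∀ F : Rule, KerSpec F → ∀ (G : SimpleGraph ℕ) (x0 : ℕ), LocFin G x0 →
    ∀ P : ℕ → ℕ → Finset ℕ, Tower G (comp G x0) P → ∀ o : ℕ → I, Set.InjOn o (comp G x0) →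
    ∀ k, ∀ x ∈ comp G x0,
      (∀ S, MeasurableSet {u | X F G P o u k x = S}) ∧
      (∀ S, (lab2 {u | X F G P o u k x = S}).toReal = mu (te G (P k x)) (P k x) S) ∧
      (∀ u, X F G P o u k x ⊆ X F G P o u (k + 1) x) ∧
      (∀ u, X F G P o u k x ⊆ inn (te G (P k x)) (P k x))

/-- JOB USTP -/
def S_USTP : Prop :=
  ∀ (r : Setoid ℕ) (E F A : Finset (Sym2 ℕ)),
    ustProb r (E : Set (Sym2 ℕ)) (F : Set (Sym2 ℕ)) (A : Set (Sym2 ℕ)) =
      (((trees r E).filter fun T => T ∩ F = A).card : ℝ) / ((trees r E).card : ℝ)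

/-- JOB LIM (from USTP and the library's `dom` and `RM`) -/
def S_LIM : Prop :=
  ∀ (G : SimpleGraph ℕ) (x : ℕ), LocFin G x →
    ∃ l : Finset (Sym2 ℕ) → Finset (Sym2 ℕ) → ℝ, ∀ V : ℕ → Finset ℕ, Monotone V →
      (⋃ n, (V n : Set ℕ)) = comp G x →
      ∀ F A : Finset (Sym2 ℕ), (∀ e ∈ F, e ∈ G.edgeSet ∧ ∀ v ∈ e, v ∈ comp G x) →
        Tendsto (fun n => ustProb (wired (V n)) (touch G (V n)) (F : Set (Sym2 ℕ))
          (A : Set (Sym2 ℕ))) atTop (𝓝 (l F A))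

/-- JOB PHI (from LAW, USTP) -/
def S_PHI : Prop :=
  ∀ F : Rule, KerSpec F → ∀ (G : SimpleGraph ℕ) (x0 : ℕ), LocFin G x0 →
    ∀ P : ℕ → ℕ → Finset ℕ, Tower G (comp G x0) P → ∀ o : ℕ → I, Set.InjOn o (comp G x0) →
      Monotone (fun k => P k x0) ∧ (⋃ k, (P k x0 : Set ℕ)) = comp G x0 ∧
      ∀ F' A : Finset (Sym2 ℕ), (∀ e ∈ F', e ∈ G.edgeSet ∧ ∀ v ∈ e, v ∈ comp G x0) →
        Tendsto (fun k => ustProb (wired (P k x0)) (touch G (P k x0)) (F' : Set (Sym2 ℕ))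
          (A : Set (Sym2 ℕ))) atTop
          (𝓝 (lab2 {u | Ph F G P o u ∩ (F' : Set (Sym2 ℕ)) = (A : Set (Sym2 ℕ))}).toReal)

/-- JOB MX (measurability of the construction, over any parameter space) -/
def S_MX : Prop :=
  ∀ F : Rule, KerSpec F → ∀ (Z : Type) [MeasurableSpace Z] (G : Z → SimpleGraph ℕ)
    (P : Z → ℕ → ℕ → Finset ℕ) (o : Z → ℕ → I) (u : Z → ℕ → ℕ → I), Measurable G →
    (∀ k x A, MeasurableSet {z | P z k x = A}) → Measurable o → Measurable u →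
      Measurable fun z => Ph F (G z) (P z) (o z) (u z)

/-- JOB MCELL (from MDL) -/
def S_MCELL : Prop :=
  ∀ (ns : ℕ → ℕ) (k x : ℕ) (A : Finset ℕ),
    MeasurableSet {p : SimpleGraph ℕ × (ℕ → ℕ → I) | cell ns p.1 p.2 k x = A}

/-- JOB EQ (equivariance, from IDL and WALK) -/
def S_EQ : Prop :=
  ∀ (F : Rule) (ns : ℕ → ℕ) (G G' : SimpleGraph ℕ) (x : ℕ) (φ : ℕ → ℕ), CIso G G' x φ →
    ∀ (o o' : ℕ → I) (θ θ' u u' : ℕ → ℕ → I),
      (∀ y ∈ comp G x, o' (φ y) = o y) → (∀ y ∈ comp G x, θ' (φ y) = θ y) →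
      (∀ y ∈ comp G x, u' (φ y) = u y) →
      ∀ y ∈ comp G x, ∀ z ∈ comp G x,
        (s(φ y, φ z) ∈ Ph F G' (cell ns G' θ') o' u' ↔ s(y, z) ∈ Ph F G (cell ns G θ) o u)

/-! ### The final statement -/

/-- Measurable maps from vertex-labelled graphs to edge sets which are equivariant under graph
isomorphisms. Graphs are components of graphs on `ℕ`. -/
structure IsFactorMap (Φ : SimpleGraph ℕ → (ℕ → I) → Set (Sym2 ℕ)) : Prop where
  measurable : Measurable fun p : SimpleGraph ℕ × (ℕ → I) => Φ p.1 p.2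
  subset : ∀ G U, Φ G U ⊆ G.edgeSet
  equivariant : ∀ (G G' : SimpleGraph ℕ) (x : ℕ) (φ : ℕ → ℕ), CIso G G' x φ →
    ∀ U U' : ℕ → I, (∀ y ∈ comp G x, U' (φ y) = U y) →
      ∀ y ∈ comp G x, ∀ z ∈ comp G x, (s(φ y, φ z) ∈ Φ G' U' ↔ s(y, z) ∈ Φ G U)

/-- Exhaustions of the component of `x` by finite connected sets. -/
structure Exhaustion (G : SimpleGraph ℕ) (x : ℕ) (V : ℕ → Finset ℕ) : Prop where
  mono : Monotone V
  connected : ∀ n, (G.induce (V n : Set ℕ)).Connected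
  union : (⋃ n, (V n : Set ℕ)) = comp G x

/-- The random edge set with law `Q`, restricted to the component of `x`, is the wired uniform
spanning forest of that component. -/
def IsWUSF (G : SimpleGraph ℕ) (x : ℕ) (Q : Measure (Set (Sym2 ℕ))) : Prop :=
  ∀ V : ℕ → Finset ℕ, Exhaustion G x V → ∀ F A : Finset (Sym2 ℕ),
    (∀ e ∈ F, e ∈ G.edgeSet ∧ ∀ v ∈ e, v ∈ comp G x) →
    Tendsto (fun n => ustProb (wired (V n)) (touch G (V n)) (F : Set (Sym2 ℕ))
      (A : Set (Sym2 ℕ))) atTop (𝓝 (Q {T | T ∩ (F : Set (Sym2 ℕ)) = (A : Set (Sym2 ℕ))}).toReal)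

/-- FINAL -/
def S_FINAL.{w} : Prop :=
  ∀ (Ω : Type w) [MeasurableSpace Ω] (P : Measure Ω) [IsProbabilityMeasure P]
    (G : Ω → SimpleGraph ℕ) (ρ : Ω → ℕ), Measurable G → Measurable ρ →
    (∀ᵐ ω ∂P, LocFin (G ω) (ρ ω)) → Unimodular P G ρ → (∀ᵐ ω ∂P, RecAt (G ω) (ρ ω)) →
    ∃ Φ : SimpleGraph ℕ → (ℕ → I) → Set (Sym2 ℕ), IsFactorMap Φ ∧
      ∀ᵐ ω ∂P, IsWUSF (G ω) (ρ ω) (lab.map (Φ (G ω)))

end Pool.Agent.J4H89.WU
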