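import Mathlib
import Pool.Agent.J4H89.WU.Stm

/-!
# Membership lemmas for the definitions in `Stm`
-/

namespace Pool.Agent.J4H89.WU

open MeasureTheory Filter Topology
open Pool.Agent.TH968.UST
open scoped ENNReal unitInterval

theorem mem_tch {E : Finset (Sym2 ℕ)} {C : Finset ℕ} {e : Sym2 ℕ} :
    e ∈ tch E C ↔ e ∈ E ∧ ∃ v ∈ C, v ∈ e := by
  classical
  unfold tch
  exact Finset.mem_filter

theorem mem_inn {E : Finset (Sym2 ℕ)} {C : Finset ℕ} {e : Sym2 ℕ} :
    e ∈ inn E C ↔ e ∈ E ∧ ∀ v ∈ e, v ∈ C := by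
  classical
  unfold inn
  exact Finset.mem_filter

theorem mem_te {G : SimpleGraph ℕ} {C : Finset ℕ} (h : (touch G C).Finite) {e : Sym2 ℕ} :
    e ∈ te G C ↔ e ∈ G.edgeSet ∧ ∃ v ∈ C, v ∈ e := by
  unfold te
  rw [dif_pos h, Set.Finite.mem_toFinset]
  rfl

theorem te_sub {G : SimpleGraph ℕ} {C : Finset ℕ} {e : Sym2 ℕ} (h : e ∈ te G C) :
    e ∈ G.edgeSet ∧ ∃ v ∈ C, v ∈ e := by
  by_cases h1 : (touch G C).Finite
  · exact (mem_te h1).1 h
  · unfold te at h
    rw [dif_neg h1] at h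
    exact absurd h (Finset.notMem_empty _)

theorem coe_te {G : SimpleGraph ℕ} {C : Finset ℕ} (h : (touch G C).Finite) :
    (te G C : Set (Sym2 ℕ)) = touch G C := by
  ext e
  rw [Finset.mem_coe, mem_te h]
  rfl

theorem mem_hull {E : Finset (Sym2 ℕ)} {C : Finset ℕ} {v : ℕ} :
    v ∈ hull E C ↔ v ∈ C ∨ ∃ e ∈ E, v ∈ e := by
  unfold hull
  rw [Finset.mem_union, Finset.mem_biUnion]
  simp only [Sym2.mem_toFinset]

theorem mem_upd {F : Rule} {E : Finset (Sym2 ℕ)} {C : Finset ℕ} {Q : Finset (Finset ℕ)}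
    {S : Finset (Sym2 ℕ)} {o : ℕ → I} {w : I} {e : Sym2 ℕ} :
    e ∈ upd F E C Q S o w ↔ e ∈ inn E C ∧ Sym2.map (rk o (hull E C)) e ∈
      F (E.image (Sym2.map (rk o (hull E C)))) (C.image (rk o (hull E C)))
        (Q.image fun B => B.image (rk o (hull E C)))
        (S.image (Sym2.map (rk o (hull E C)))) w := by
  classical
  unfold upd
  exact Finset.mem_filter

/-- `rk` is injective if the order labels are distinct -/
theorem rk_inj {o : ℕ → I} {A : Finset ℕ} (h : Set.InjOn o (A : Set ℕ)) :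
    Set.InjOn (rk o A) (A : Set ℕ) := by
  classical
  have key : ∀ v ∈ A, ∀ w ∈ A, o v < o w → rk o A v < rk o A w := by
    intro v hv w hw hvw
    unfold rk
    apply Finset.card_lt_card
    rw [Finset.ssubset_iff_of_subset]
    · exact ⟨v, Finset.mem_filter.2 ⟨hv, hvw⟩, fun h => lt_irrefl _ (Finset.mem_filter.1 h).2⟩
    · intro z hz
      exact Finset.mem_filter.2 ⟨(Finset.mem_filter.1 hz).1,
        (Finset.mem_filter.1 hz).2.trans hvw⟩
  intro v hv w hw hvw
  rcases lt_trichotomy (o v) (o w) with h1 | h1 | h1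
  · exact absurd hvw (key v hv w hw h1).ne
  · exact h hv hw h1
  · exact absurd hvw (key w hw v hv h1).ne'

/-- edges touching a finite part of a locally finite component -/
theorem touch_finite {G : SimpleGraph ℕ} {x : ℕ} (h : LocFin G x) {C : Finset ℕ}
    (hC : (C : Set ℕ) ⊆ comp G x) : (touch G C).Finite := by
  have h1 : touch G C ⊆ ⋃ v ∈ C, (fun w => s(v, w)) '' (G.neighborSet v) := by
    rintro e ⟨he, v, hv, hve⟩
    obtain ⟨w, rfl⟩ := Sym2.mem_iff_exists.1 hve
    simp only [Set.mem_iUnion]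
    exact ⟨v, hv, w, he, rfl⟩
  refine Set.Finite.subset ?_ h1
  exact Set.Finite.biUnion C.finite_toSet fun v hv => (h v (hC hv)).image _

/-- components are closed under adjacency -/
theorem comp_adj {G : SimpleGraph ℕ} {x y z : ℕ} (hy : y ∈ comp G x) (h : G.Adj y z) :
    z ∈ comp G x :=
  SimpleGraph.Reachable.trans hy h.reachable

theorem self_comp (G : SimpleGraph ℕ) (x : ℕ) : x ∈ comp G x := SimpleGraph.Reachable.refl _

end Pool.Agent.J4H89.WU
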