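import Mathlib
import Pool.Agent.J4H89.WU.Bas

/-!
# Assembly of the final statement
-/

namespace Pool.Agent.J4H89.WU

open MeasureTheory Filter Topology
open Pool.Agent.TH968.UST
open scoped ENNReal unitInterval

theorem ae_inj : ∀ᵐ o ∂lab, Function.Injective o := by
  have h : ∀ x y : ℕ, x ≠ y → ∀ᵐ o ∂lab, o x ≠ o y := by
    intro x y hxy
    have h1 : lab.map (fun o : ℕ → I => (o x, o y)) = (volume : Measure I).prod volume :=
      Measure.infinitePi_map_eval_prod (P := fun _ => (volume : Measure I)) hxy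
    have hm : Measurable fun o : ℕ → I => (o x, o y) := by fun_prop
    have h2 : ∀ᵐ p ∂((volume : Measure I).prod volume), p.1 ≠ p.2 := by
      rw [ae_iff]
      have h3 : {a : I × I | ¬ a.1 ≠ a.2} = {a : I × I | a.1 = a.2} := by
        ext a; simp
      rw [h3, Measure.prod_apply (measurableSet_eq_fun measurable_fst measurable_snd)]
      have : ∀ a : I, Prod.mk a ⁻¹' {a : I × I | a.1 = a.2} = {a} := by
        intro a; ext b; simp [eq_comm]
      simp [this]
    rw [← h1] at h2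
    exact ae_of_ae_map hm.aemeasurable h2
  have h' : ∀ᵐ o ∂lab, ∀ x y : ℕ, x ≠ y → o x ≠ o y := by
    rw [ae_all_iff]; intro x
    rw [ae_all_iff]; intro y
    by_cases hxy : x = y
    · exact Eventually.of_forall fun o h => absurd hxy h
    · filter_upwards [h x y hxy] with o ho _ using ho
  filter_upwards [h'] with o ho x y hxy
  by_contra hne
  exact ho x y hne hxy

theorem X_sub (F : Rule) (G : SimpleGraph ℕ) (P : ℕ → ℕ → Finset ℕ) (o : ℕ → I)
    (u : ℕ → ℕ → I) (k x : ℕ) : (X F G P o u k x : Set (Sym2 ℕ)) ⊆ G.edgeSet := by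
  cases k with
  | zero => simp [X]
  | succ k =>
    intro e he
    rw [X, Finset.mem_coe, mem_upd] at he
    exact (te_sub (mem_inn.1 he.1).1).1

theorem measurableSet_cyl (F' A : Finset (Sym2 ℕ)) :
    MeasurableSet {T : Set (Sym2 ℕ) | T ∩ (F' : Set (Sym2 ℕ)) = (A : Set (Sym2 ℕ))} := by
  have : {T : Set (Sym2 ℕ) | T ∩ (F' : Set (Sym2 ℕ)) = (A : Set (Sym2 ℕ))} =
      ⋂ e : Sym2 ℕ, {T : Set (Sym2 ℕ) | (e ∈ T ∧ e ∈ F') ↔ e ∈ A} := by
    ext T
    simp only [Set.mem_ofPred_eq, Set.mem_iInter, Set.ext_iff, Set.mem_inter_iff,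
      Finset.mem_coe]
  rw [this]
  refine MeasurableSet.iInter fun e => ?_
  have hm : MeasurableSet {T : Set (Sym2 ℕ) | e ∈ T} := measurableSet_setOfPred.2 (measurable_set_mem e)
  by_cases h1 : e ∈ F' <;> by_cases h2 : e ∈ A
  · simpa [h1, h2] using hm
  · have h3 := hm.compl
    convert h3 using 1
    ext T
    simp [h1, h2]
  · simp [h1, h2]
  · simp [h1, h2]

theorem Ph_sub (F : Rule) (G : SimpleGraph ℕ) (P : ℕ → ℕ → Finset ℕ) (o : ℕ → I)
    (u : ℕ → ℕ → I) : Ph F G P o u ⊆ G.edgeSet := by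
  rintro e ⟨k, x, _, he⟩
  exact X_sub F G P o u k x he

theorem t_FINAL.{w} (hSPLIT : S_SPLIT) (hGOOD : S_GOOD.{w}) (hTOW : S_TOW) (hKER : S_KER)
    (hPHI : S_PHI) (hLIM : S_LIM) (hMX : S_MX) (hMC : S_MCELL) (hEQ : S_EQ) : S_FINAL.{w} := by
  intro Ω _ P _ G ρ hG hρ hlf hU hrec
  obtain ⟨F, hF⟩ := hKER
  obtain ⟨ns, hns, hgood⟩ := hGOOD Ω P G ρ hG hρ hlf hU hrec
  obtain ⟨f, hf, hmap⟩ := hSPLIT
  set Sp : (ℕ → I) → (ℕ → I) × (ℕ → ℕ → I) × (ℕ → ℕ → I) := fun U =>
    ((fun v => (f (U v)).1), (fun v => (f (U v)).2.1), fun v => (f (U v)).2.2) with hSp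
  have hSpm : Measurable Sp := by
    rw [hSp]
    refine Measurable.prodMk ?_ (Measurable.prodMk ?_ ?_)
    · exact measurable_pi_iff.2 fun v => (hf.comp (measurable_pi_apply v)).fst
    · exact measurable_pi_iff.2 fun v => (hf.comp (measurable_pi_apply v)).snd.fst
    · exact measurable_pi_iff.2 fun v => (hf.comp (measurable_pi_apply v)).snd.snd
  let Φ : SimpleGraph ℕ → (ℕ → I) → Set (Sym2 ℕ) := fun G U =>
    Ph F G (cell ns G (Sp U).2.1) (Sp U).1 (Sp U).2.2
  refine ⟨Φ, ⟨?_, ?_, ?_⟩, ?_⟩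
  · -- measurability
    refine hMX F hF (SimpleGraph ℕ × (ℕ → I)) (fun z => z.1)
      (fun z => cell ns z.1 (Sp z.2).2.1) (fun z => (Sp z.2).1) (fun z => (Sp z.2).2.2)
      measurable_fst ?_ ?_ ?_
    · intro k x A
      have h1 : Measurable fun z : SimpleGraph ℕ × (ℕ → I) => (z.1, (Sp z.2).2.1) :=
        Measurable.prodMk measurable_fst (hSpm.comp measurable_snd).snd.fst
      exact h1 (hMC ns k x A)
    · exact (hSpm.comp measurable_snd).fst
    · exact (hSpm.comp measurable_snd).snd.snd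
  · intro G U
    exact Ph_sub _ _ _ _ _
  · intro G G' x φ hφ U U' hUU y hy z hz
    refine hEQ F ns G G' x φ hφ _ _ _ _ _ _ ?_ ?_ ?_ y hy z hz
    · intro y hy
      show (f (U' (φ y))).1 = (f (U y)).1
      rw [hUU y hy]
    · intro y hy
      show (f (U' (φ y))).2.1 = (f (U y)).2.1
      rw [hUU y hy]
    · intro y hy
      show (f (U' (φ y))).2.2 = (f (U y)).2.2
      rw [hUU y hy]
  · filter_upwards [hlf, hgood] with ω hω1 hω2
    obtain ⟨l, hl⟩ := hLIM (G ω) (ρ ω) hω1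
    intro V hV F' A hF'
    have hlV := hl V hV.mono hV.union F' A hF'
    -- measurability
    have hgm : Measurable fun p : (ℕ → I) × (ℕ → ℕ → I) × (ℕ → ℕ → I) =>
        Ph F (G ω) (cell ns (G ω) p.2.1) p.1 p.2.2 := by
      have h0 : ∀ k x B, MeasurableSet {z : (ℕ → I) × (ℕ → ℕ → I) × (ℕ → ℕ → I) |
          cell ns (G ω) z.2.1 k x = B} := by
        intro k x B
        have h1 : Measurable fun z : (ℕ → I) × (ℕ → ℕ → I) × (ℕ → ℕ → I) => (G ω, z.2.1) :=
          Measurable.prodMk measurable_const measurable_snd.fst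
        exact h1 (hMC ns k x B)
      exact hMX F hF ((ℕ → I) × (ℕ → ℕ → I) × (ℕ → ℕ → I)) (fun _ => G ω)
        (fun z => cell ns (G ω) z.2.1) (fun z => z.1) (fun z => z.2.2) measurable_const h0
        measurable_fst measurable_snd.snd
    have hset := measurableSet_cyl F' A
    have hΦm : Measurable (Φ (G ω)) := hgm.comp hSpm
    set B : Set ((ℕ → I) × (ℕ → ℕ → I) × (ℕ → ℕ → I)) :=
      {p | Ph F (G ω) (cell ns (G ω) p.2.1) p.1 p.2.2 ∩ (F' : Set (Sym2 ℕ)) =
        (A : Set (Sym2 ℕ))} with hB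
    have hBm : MeasurableSet B := hgm hset
    have e1 : (lab.map (Φ (G ω))) {T | T ∩ (F' : Set (Sym2 ℕ)) = (A : Set (Sym2 ℕ))} =
        (lab.prod (lab2.prod lab2)) B := by
      rw [← hmap, Measure.map_apply hΦm hset, Measure.map_apply hSpm hBm]
      rfl
    have e2 : (lab.prod (lab2.prod lab2)) B = ENNReal.ofReal (l F' A) := by
      have hin : ∀ᵐ o ∂lab, ∀ᵐ θ ∂lab2,
          lab2 (Prod.mk θ ⁻¹' (Prod.mk o ⁻¹' B)) = ENNReal.ofReal (l F' A) := by
        filter_upwards [ae_inj] with o ho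
        filter_upwards [hTOW ns hns (G ω) (ρ ω) hω1 hω2] with θ hθ
        obtain ⟨h1, h2, h3⟩ := hPHI F hF (G ω) (ρ ω) hω1 _ hθ o ho.injOn
        have h4 := h3 F' A hF'
        have h5 := hl _ h1 h2 F' A hF'
        have h6 := tendsto_nhds_unique h4 h5
        rw [← h6, ENNReal.ofReal_toReal (measure_ne_top _ _)]
        rfl
      rw [Measure.prod_apply hBm]
      have : ∀ᵐ o ∂lab, (lab2.prod lab2) (Prod.mk o ⁻¹' B) = ENNReal.ofReal (l F' A) := by
        filter_upwards [hin] with o ho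
        rw [Measure.prod_apply (measurable_prodMk_left hBm), lintegral_congr_ae ho]
        simp
      rw [lintegral_congr_ae this]
      simp
    have hl0 : 0 ≤ l F' A := by
      refine ge_of_tendsto hlV (Eventually.of_forall fun n => ?_)
      unfold ustProb
      positivity
    rw [e1, e2, ENNReal.toReal_ofReal hl0]
    exact hlV

end Pool.Agent.J4H89.WU
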