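import Mathlib
import Pool.Agent.J4H89.WU.Bas
import Pool.Agent.TH830.J73
import Pool.Agent.TH830.J74

/-!
# Stochastic domination of independent wired trees in subcells
-/

namespace Pool.Agent.J4H89.WU

open MeasureTheory Filter Topology
open Pool.Agent.TH968.UST Pool.Agent.TH830.UST Pool.Agent.TH830.J74
open scoped ENNReal unitInterval

theorem dom_av' (r r' : Setoid ℕ) (hr : r' ≤ r) (E E' : Finset (Sym2 ℕ)) (hE : E' ⊆ E)
    (g : Finset (Sym2 ℕ) → ℝ) (hg : ∀ S T, S ⊆ T → g S ≤ g T) :
    av r E (fun T => g (T ∩ E')) ≤ av r' E' g :=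
  dom_av (fun r r' hr E E' hE e he => Pool.Agent.TH830.J73.RM r r' hr E E' hE e he) _ r r' hr E E'
    hE rfl g hg

theorem av_congr (r : Setoid ℕ) (E : Finset (Sym2 ℕ)) {h k : Finset (Sym2 ℕ) → ℝ}
    (hk : ∀ T ∈ trees r E, h T = k T) : av r E h = av r E k := by
  unfold av
  rw [Finset.sum_congr rfl hk]

theorem av_const (r : Setoid ℕ) (E : Finset (Sym2 ℕ)) (c : ℝ) : av r E (fun _ => c) = c := by
  unfold av
  rw [Finset.sum_const, nsmul_eq_mul]
  have := card_pos' r E
  field_simp

theorem contr_le_wired {r : Setoid ℕ} {B : Finset ℕ} (hr : r ≤ wired B) {f : Sym2 ℕ}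
    (hf : ∀ v ∈ f, v ∉ B) : contr r f ≤ wired B := by
  intro a b hab
  have h1 : Conn (wired B) ∅ a b := by
    refine clift (fun _ _ h => crel (hr h)) ?_ hab
    intro c d hcd
    have h2 : s(c, d) = f := hcd
    refine crel (Or.inr ⟨hf c (h2 ▸ ?_), hf d (h2 ▸ ?_)⟩)
    · simp
    · simp
  exact cempty h1

/-- comparison with an independent wired tree, given the edges which do not touch `B` -/
theorem cond (B : Finset ℕ) (EB : Finset (Sym2 ℕ)) (hEB : ∀ e ∈ EB, ∃ v ∈ B, v ∈ e)
    (D : Finset (Sym2 ℕ)) : (∀ e ∈ D, ∀ v ∈ e, v ∉ B) → ∀ r : Setoid ℕ, r ≤ wired B →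
    ∀ h : Finset (Sym2 ℕ) → Finset (Sym2 ℕ) → ℝ, (∀ S T U, S ⊆ T → h S U ≤ h T U) →
    av r (EB ∪ D) (fun T => av (wired B) EB fun T' => h T' (T \ EB)) ≤
      av r (EB ∪ D) (fun T => h (T ∩ EB) (T \ EB)) := by
  classical
  induction D using Finset.induction_on with
  | empty =>
    intro _ r hr h hh
    rw [Finset.union_empty]
    have h1 : av r EB (fun T => av (wired B) EB fun T' => h T' (T \ EB)) =
        av (wired B) EB fun T' => h T' ∅ := by
      rw [av_congr r EB (k := fun _ => av (wired B) EB fun T' => h T' ∅), av_const]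
      intro T hT
      rw [Finset.sdiff_eq_empty_iff_subset.2 (mem_trees.1 hT).1]
    have h2 : av r EB (fun T => h (T ∩ EB) (T \ EB)) = av r EB (fun T => h T ∅) := by
      apply av_congr
      intro T hT
      have h3 := (mem_trees.1 hT).1
      rw [Finset.sdiff_eq_empty_iff_subset.2 h3, Finset.inter_eq_left.2 h3]
    have h3 : av (wired B) EB (fun T' => h T' ∅) = av (wired B) EB (fun T' => h (T' ∩ EB) ∅) := by
      apply av_congr
      intro T hT
      rw [Finset.inter_eq_left.2 (mem_trees.1 hT).1]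
    rw [h1, h2, h3]
    exact dom_av' (wired B) r hr EB EB (Finset.Subset.refl _) (fun T => h T ∅)
      (fun S T hST => hh S T ∅ hST)
  | insert f D hf ih =>
    intro hD r hr h hh
    have hDf : ∀ v ∈ f, v ∉ B := hD f (Finset.mem_insert_self _ _)
    have hD' : ∀ e ∈ D, ∀ v ∈ e, v ∉ B := fun e he => hD e (Finset.mem_insert_of_mem he)
    have hfEB : f ∉ EB := by
      intro h1
      obtain ⟨v, hv, hvf⟩ := hEB f h1
      exact hDf v hvf hv
    have hfE : f ∈ EB ∪ insert f D := by simp
    have hE : (EB ∪ insert f D).erase f = EB ∪ D := by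
      rw [Finset.union_insert, Finset.erase_insert]
      rw [Finset.mem_union]
      rintro (h1 | h1)
      · exact hfEB h1
      · exact hf h1
    have s1 := sum_split r (EB ∪ insert f D) hfE
      (fun T => av (wired B) EB fun T' => h T' (T \ EB))
    have s2 := sum_split r (EB ∪ insert f D) hfE (fun T => h (T ∩ EB) (T \ EB))
    rw [hE] at s1 s2
    have i1 := ih hD' (contr r f) (contr_le_wired hr hDf) (fun S U => h S (insert f U))
      (fun S T U hST => hh S T _ hST)
    have i2 := ih hD' r hr h hh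
    have c1 : av (contr r f) (EB ∪ D)
        (fun T => av (wired B) EB fun T' => h T' (insert f T \ EB)) =
        av (contr r f) (EB ∪ D)
        (fun T => av (wired B) EB fun T' => h T' (insert f (T \ EB))) := by
      apply av_congr
      intro T _
      rw [Finset.insert_sdiff_of_notMem _ hfEB]
    have c2 : av (contr r f) (EB ∪ D) (fun T => h (insert f T ∩ EB) (insert f T \ EB)) =
        av (contr r f) (EB ∪ D) (fun T => h (T ∩ EB) (insert f (T \ EB))) := by
      apply av_congr
      intro T _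
      rw [Finset.insert_sdiff_of_notMem _ hfEB, Finset.insert_inter_of_notMem hfEB]
    rw [c1] at s1
    rw [c2] at s2
    have hN := card_pos' r (EB ∪ insert f D)
    have e1 : av r (EB ∪ insert f D) (fun T => av (wired B) EB fun T' => h T' (T \ EB)) =
        (∑ T ∈ trees r (EB ∪ insert f D), av (wired B) EB fun T' => h T' (T \ EB)) /
        ((trees r (EB ∪ insert f D)).card : ℝ) := rfl
    have e2 : av r (EB ∪ insert f D) (fun T => h (T ∩ EB) (T \ EB)) =
        (∑ T ∈ trees r (EB ∪ insert f D), h (T ∩ EB) (T \ EB)) /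
        ((trees r (EB ∪ insert f D)).card : ℝ) := rfl
    rw [e1, e2, s1, s2]
    refine div_le_div_of_nonneg_right ?_ hN.le
    have n1' := n1_nonneg r (EB ∪ insert f D) f
    have n0' := n0_nonneg r (EB ∪ insert f D) f
    exact add_le_add (mul_le_mul_of_nonneg_left i1 n1') (mul_le_mul_of_nonneg_left i2 n0')

theorem sum_mu (A : Finset (Sym2 ℕ)) (B : Finset ℕ) (φ : Finset (Sym2 ℕ) → ℝ) :
    ∑ S ∈ (inn A B).powerset, mu A B S * φ S =
      av (wired B) (tch A B) (fun T => φ (T ∩ inn A B)) := by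
  classical
  unfold av
  have h1 : ∑ T ∈ trees (wired B) (tch A B), φ (T ∩ inn A B) =
      ∑ S ∈ (inn A B).powerset,
        ∑ T ∈ (trees (wired B) (tch A B)).filter (fun T => T ∩ inn A B = S), φ (T ∩ inn A B) := by
    refine (Finset.sum_fiberwise_of_maps_to ?_ _).symm
    intro T _
    exact Finset.mem_powerset.2 Finset.inter_subset_right
  rw [h1, Finset.sum_div]
  refine Finset.sum_congr rfl fun S _ => ?_
  have h2 : ∑ T ∈ (trees (wired B) (tch A B)).filter (fun T => T ∩ inn A B = S),
      φ (T ∩ inn A B) =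
      (((trees (wired B) (tch A B)).filter (fun T => T ∩ inn A B = S)).card : ℝ) * φ S := by
    rw [← nsmul_eq_mul, ← Finset.sum_const]
    refine Finset.sum_congr rfl fun T hT => ?_
    rw [(Finset.mem_filter.1 hT).2]
  rw [h2]
  unfold mu
  ring

theorem sum_powerset_union (X Y : Finset (Sym2 ℕ)) (h : Disjoint X Y)
    (φ : Finset (Sym2 ℕ) → ℝ) :
    ∑ S ∈ (X ∪ Y).powerset, φ S = ∑ S ∈ X.powerset, ∑ T ∈ Y.powerset, φ (S ∪ T) := by
  classical
  rw [← Finset.sum_product']
  symm
  refine Finset.sum_nbij' (fun p => p.1 ∪ p.2) (fun S => (S ∩ X, S ∩ Y)) ?_ ?_ ?_ ?_ ?_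
  · rintro ⟨S, T⟩ hST
    rw [Finset.mem_product, Finset.mem_powerset, Finset.mem_powerset] at hST
    exact Finset.mem_powerset.2 (Finset.union_subset_union hST.1 hST.2)
  · intro S _
    rw [Finset.mem_product, Finset.mem_powerset, Finset.mem_powerset]
    exact ⟨Finset.inter_subset_right, Finset.inter_subset_right⟩
  · rintro ⟨S, T⟩ hST
    rw [Finset.mem_product, Finset.mem_powerset, Finset.mem_powerset] at hST
    have hTX : Disjoint T X := (h.mono_right hST.2).symm
    have hSY : Disjoint S Y := h.mono_left hST.1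
    ext1
    · show (S ∪ T) ∩ X = S
      rw [Finset.union_inter_distrib_right, Finset.inter_eq_left.2 hST.1,
        Finset.disjoint_iff_inter_eq_empty.1 hTX, Finset.union_empty]
    · show (S ∪ T) ∩ Y = T
      rw [Finset.union_inter_distrib_right, Finset.inter_eq_left.2 hST.2,
        Finset.disjoint_iff_inter_eq_empty.1 hSY, Finset.empty_union]
  · intro S hS
    rw [Finset.mem_powerset] at hS
    show S ∩ X ∪ S ∩ Y = S
    rw [← Finset.inter_union_distrib_left, Finset.inter_eq_left.2 hS]
  · intro p _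
    rfl

theorem inn_disj {A : Finset (Sym2 ℕ)} {B B' : Finset ℕ} (h : Disjoint B B') {e : Sym2 ℕ}
    (he : e ∈ inn A B) : e ∉ inn A B' := by
  intro he'
  have h1 := (mem_inn.1 he).2
  have h2 := (mem_inn.1 he').2
  induction e using Sym2.ind with
  | _ a b => exact Finset.disjoint_left.1 h (h1 a (by simp)) (h2 a (by simp))

theorem av_sum {ι : Type*} (r : Setoid ℕ) (E : Finset (Sym2 ℕ)) (s : Finset ι) (c : ι → ℝ)
    (φ : ι → Finset (Sym2 ℕ) → ℝ) :
    ∑ i ∈ s, c i * av r E (φ i) = av r E (fun T => ∑ i ∈ s, c i * φ i T) := by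
  unfold av
  rw [Finset.sum_comm, Finset.sum_div]
  refine Finset.sum_congr rfl fun i _ => ?_
  rw [← Finset.mul_sum]
  ring

theorem mu_nonneg (A : Finset (Sym2 ℕ)) (B : Finset ℕ) (S : Finset (Sym2 ℕ)) : 0 ≤ mu A B S := by
  unfold mu
  positivity

theorem key (A : Finset (Sym2 ℕ)) (Q : Finset (Finset ℕ)) :
    (∀ B ∈ Q, ∀ B' ∈ Q, B ≠ B' → Disjoint B B') →
    ∀ r : Setoid ℕ, (∀ B ∈ Q, r ≤ wired B) →
    ∀ g : Finset (Sym2 ℕ) → ℝ, (∀ S T, S ⊆ T → g S ≤ g T) →
    ∑ S ∈ (Q.biUnion (inn A)).powerset, nu A Q S * g S ≤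
      av r A (fun T => g (T ∩ Q.biUnion (inn A))) := by
  classical
  induction Q using Finset.induction_on with
  | empty =>
    intro _ r _ g _
    rw [Finset.biUnion_empty, Finset.powerset_empty, Finset.sum_singleton]
    have h1 : nu A ∅ ∅ = 1 := by
      unfold nu
      simp
    have h2 : av r A (fun T => g (T ∩ ∅)) = g ∅ := by
      rw [av_congr r A (k := fun _ => g ∅), av_const]
      intro T _
      rw [Finset.inter_empty]
    rw [h1, h2, one_mul]
  | insert B Q hB ih =>
    intro hdis r hr g hg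
    have hdis' : ∀ B' ∈ Q, Disjoint B B' := fun B' hB' =>
      hdis B (Finset.mem_insert_self _ _) B' (Finset.mem_insert_of_mem hB')
        (fun h => hB (h ▸ hB'))
    have IH := ih (fun B hB B' hB' => hdis B (Finset.mem_insert_of_mem hB) B'
      (Finset.mem_insert_of_mem hB')) r (fun B hB => hr B (Finset.mem_insert_of_mem hB))
    set Y := Q.biUnion (inn A) with hY
    have hXY : Disjoint (inn A B) Y := by
      rw [hY, Finset.disjoint_biUnion_right]
      intro B' hB'
      rw [Finset.disjoint_left]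
      intro e he
      exact inn_disj (hdis' B' hB') he
    rw [Finset.biUnion_insert, ← hY, sum_powerset_union _ _ hXY]
    have hnu : ∀ S ∈ (inn A B).powerset, ∀ T ∈ Y.powerset,
        nu A (insert B Q) (S ∪ T) = mu A B S * nu A Q T := by
      intro S hS T hT
      rw [Finset.mem_powerset] at hS hT
      have h1 : S ∪ T ⊆ (insert B Q).biUnion (inn A) := by
        rw [Finset.biUnion_insert, ← hY]
        exact Finset.union_subset_union hS hT
      have h2 : T ⊆ Q.biUnion (inn A) := hT
      unfold nu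
      rw [if_pos h1, if_pos h2, Finset.prod_insert hB]
      have hTX : Disjoint T (inn A B) := (hXY.mono_right hT).symm
      congr 1
      · rw [Finset.union_inter_distrib_right, Finset.inter_eq_left.2 hS,
          Finset.disjoint_iff_inter_eq_empty.1 hTX, Finset.union_empty]
      · refine Finset.prod_congr rfl fun B' hB' => ?_
        have h3 : Disjoint S (inn A B') := by
          rw [Finset.disjoint_left]
          intro e he
          exact inn_disj (hdis' B' hB') (hS he)
        rw [Finset.union_inter_distrib_right, Finset.disjoint_iff_inter_eq_empty.1 h3,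
          Finset.empty_union]
    -- step 1: induction hypothesis
    have st1 : ∑ S ∈ (inn A B).powerset, ∑ T ∈ Y.powerset,
        nu A (insert B Q) (S ∪ T) * g (S ∪ T) ≤
        ∑ S ∈ (inn A B).powerset, mu A B S * av r A (fun T => g (S ∪ (T ∩ Y))) := by
      refine Finset.sum_le_sum fun S hS => ?_
      have h1 : ∑ T ∈ Y.powerset, nu A (insert B Q) (S ∪ T) * g (S ∪ T) =
          mu A B S * ∑ T ∈ Y.powerset, nu A Q T * g (S ∪ T) := by
        rw [Finset.mul_sum]
        refine Finset.sum_congr rfl fun T hT => ?_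
        rw [hnu S hS T hT]
        ring
      rw [h1]
      refine mul_le_mul_of_nonneg_left ?_ (mu_nonneg _ _ _)
      exact IH (fun T => g (S ∪ T)) (fun T T' h => hg _ _ (Finset.union_subset_union_right h))
    refine st1.trans ?_
    rw [av_sum]
    -- step 2: comparison with the independent tree
    have hA : A = tch A B ∪ (A \ tch A B) := by
      rw [Finset.union_sdiff_of_subset]
      exact fun e he => (mem_tch.1 he).1
    have st2 := cond B (tch A B) (fun e he => (mem_tch.1 he).2) (A \ tch A B) (by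
        intro e he v hv hvB
        rw [Finset.mem_sdiff] at he
        exact he.2 (mem_tch.2 ⟨he.1, v, hvB, hv⟩)) r (hr B (Finset.mem_insert_self _ _))
      (fun S U => g ((S ∩ inn A B) ∪ (U ∩ Y)))
      (fun S T U hST => hg _ _ (Finset.union_subset_union_left
        (Finset.inter_subset_inter_right hST)))
    rw [← hA] at st2
    have hYt : ∀ T : Finset (Sym2 ℕ), (T \ tch A B) ∩ Y = T ∩ Y := by
      intro T
      ext e
      rw [Finset.mem_inter, Finset.mem_inter, Finset.mem_sdiff]
      constructor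
      · rintro ⟨⟨h1, -⟩, h2⟩
        exact ⟨h1, h2⟩
      · rintro ⟨h1, h2⟩
        refine ⟨⟨h1, fun h3 => ?_⟩, h2⟩
        obtain ⟨B', hB', h4⟩ := Finset.mem_biUnion.1 h2
        obtain ⟨-, v, hv, hve⟩ := mem_tch.1 h3
        exact Finset.disjoint_left.1 (hdis' B' hB') hv ((mem_inn.1 h4).2 v hve)
    have hXt : ∀ T : Finset (Sym2 ℕ), (T ∩ tch A B) ∩ inn A B = T ∩ inn A B := by
      intro T
      ext e
      rw [Finset.mem_inter, Finset.mem_inter, Finset.mem_inter]
      constructor
      · rintro ⟨⟨h1, -⟩, h2⟩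
        exact ⟨h1, h2⟩
      · rintro ⟨h1, h2⟩
        refine ⟨⟨h1, mem_tch.2 ⟨(mem_inn.1 h2).1, ?_⟩⟩, h2⟩
        have h3 := (mem_inn.1 h2).2
        induction e using Sym2.ind with
        | _ a b => exact ⟨a, h3 a (by simp), by simp⟩
    have e1 : av r A (fun T => ∑ S ∈ (inn A B).powerset, mu A B S * g (S ∪ T ∩ Y)) =
        av r A (fun T => av (wired B) (tch A B) fun T' =>
          g ((T' ∩ inn A B) ∪ ((T \ tch A B) ∩ Y))) := by
      apply av_congr
      intro T _
      rw [sum_mu A B (fun S => g (S ∪ T ∩ Y)), hYt]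
    have e2 : av r A (fun T => g (T ∩ (inn A B ∪ Y))) =
        av r A (fun T => g (((T ∩ tch A B) ∩ inn A B) ∪ ((T \ tch A B) ∩ Y))) := by
      apply av_congr
      intro T _
      rw [hXt, hYt, ← Finset.inter_union_distrib_left]
    rw [e1, e2]
    exact st2

theorem inn_tch {E : Finset (Sym2 ℕ)} {B C : Finset ℕ} (h : B ⊆ C) :
    inn (tch E C) B = inn E B := by
  ext e
  rw [mem_inn, mem_inn, mem_tch]
  constructor
  · rintro ⟨⟨h1, -⟩, h2⟩
    exact ⟨h1, h2⟩
  · rintro ⟨h1, h2⟩
    refine ⟨⟨h1, ?_⟩, h2⟩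
    induction e using Sym2.ind with
    | _ a b => exact ⟨a, h (h2 a (by simp)), by simp⟩

theorem tch_tch {E : Finset (Sym2 ℕ)} {B C : Finset ℕ} (h : B ⊆ C) :
    tch (tch E C) B = tch E B := by
  ext e
  rw [mem_tch, mem_tch, mem_tch]
  constructor
  · rintro ⟨⟨h1, -⟩, h2⟩
    exact ⟨h1, h2⟩
  · rintro ⟨h1, v, hv, h2⟩
    exact ⟨⟨h1, v, h hv, h2⟩, v, hv, h2⟩

theorem wired_anti {B C : Finset ℕ} (h : B ⊆ C) : wired C ≤ wired B := by
  intro a b hab
  rcases hab with h1 | ⟨h1, h2⟩
  · exact Or.inl h1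
  · exact Or.inr ⟨fun h3 => h1 (h h3), fun h3 => h2 (h h3)⟩

theorem t_DOM : S_DOM := by
  classical
  intro E C Q hQ g hg
  have hsub : ∀ B ∈ Q, B ⊆ C := fun B hB => by
    rw [← hQ.1]
    exact Finset.subset_biUnion_of_mem id hB
  have hinn : Q.biUnion (inn (tch E C)) = Q.biUnion (inn E) := by
    ext e
    rw [Finset.mem_biUnion, Finset.mem_biUnion]
    constructor
    · rintro ⟨B, hB, he⟩
      exact ⟨B, hB, by rwa [inn_tch (hsub B hB)] at he⟩
    · rintro ⟨B, hB, he⟩
      exact ⟨B, hB, by rwa [inn_tch (hsub B hB)]⟩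
  have hnu : ∀ S, nu (tch E C) Q S = nu E Q S := by
    intro S
    unfold nu
    rw [hinn]
    split_ifs with h
    · refine Finset.prod_congr rfl fun B hB => ?_
      unfold mu
      rw [inn_tch (hsub B hB), tch_tch (hsub B hB)]
    · rfl
  have hUC : Q.biUnion (inn E) ⊆ inn E C := by
    intro e he
    obtain ⟨B, hB, he⟩ := Finset.mem_biUnion.1 he
    rw [mem_inn] at he ⊢
    exact ⟨he.1, fun v hv => hsub B hB (he.2 v hv)⟩
  have h1 := key (tch E C) Q hQ.2 (wired C) (fun B hB => wired_anti (hsub B hB)) g hg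
  rw [hinn] at h1
  rw [sum_mu E C g]
  have h2 : ∑ S ∈ (inn E C).powerset, nu E Q S * g S =
      ∑ S ∈ (Q.biUnion (inn E)).powerset, nu (tch E C) Q S * g S := by
    symm
    rw [Finset.sum_congr rfl fun S _ => by rw [hnu S]]
    refine Finset.sum_subset (Finset.powerset_mono.2 hUC) ?_
    intro S _ hS
    rw [Finset.mem_powerset] at hS
    have : nu E Q S = 0 := by
      unfold nu
      rw [if_neg hS]
    rw [this, zero_mul]
  rw [h2]
  refine h1.trans ?_
  exact av_mono _ _ _ _ fun T => hg _ _ (Finset.inter_subset_inter_left hUC)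

end Pool.Agent.J4H89.WU
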