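import Mathlib
import Pool.Agent.J4H89.WU.Bas

/-!
# Events which are determined by finitely many labels, and their independence
-/

namespace Pool.Agent.J4H89.WU

open MeasureTheory Filter Topology ProbabilityTheory
open scoped ENNReal unitInterval

/-- measurable events which depend only on the labels in `J` -/
def Det (J : Finset (ℕ × ℕ)) (B : Set (ℕ → ℕ → I)) : Prop :=
  MeasurableSet B ∧ ∀ u u', (∀ p ∈ J, u p.1 p.2 = u' p.1 p.2) → u ∈ B → u' ∈ B

theorem Det.mono {J J' : Finset (ℕ × ℕ)} {B : Set (ℕ → ℕ → I)} (h : Det J B) (hJ : J ⊆ J') :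
    Det J' B :=
  ⟨h.1, fun u u' hu => h.2 u u' fun p hp => hu p (hJ hp)⟩

theorem Det.inter {J : Finset (ℕ × ℕ)} {B B' : Set (ℕ → ℕ → I)} (h : Det J B) (h' : Det J B') :
    Det J (B ∩ B') :=
  ⟨h.1.inter h'.1, fun u u' hu hm => ⟨h.2 u u' hu hm.1, h'.2 u u' hu hm.2⟩⟩

theorem Det.empty (J : Finset (ℕ × ℕ)) : Det J ∅ := ⟨MeasurableSet.empty, fun _ _ _ h => h⟩

theorem Det.univ (J : Finset (ℕ × ℕ)) : Det J Set.univ :=
  ⟨MeasurableSet.univ, fun _ _ _ _ => trivial⟩

theorem Det.biInter {ι : Type*} {Q : Finset ι} {J : Finset (ℕ × ℕ)} {B : ι → Set (ℕ → ℕ → I)}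
    (h : ∀ i ∈ Q, Det J (B i)) : Det J (⋂ i ∈ Q, B i) := by
  refine ⟨Finset.measurableSet_biInter Q fun i hi => (h i hi).1, fun u u' hu hm => ?_⟩
  simp only [Set.mem_iInter] at hm ⊢
  exact fun i hi => (h i hi).2 u u' hu (hm i hi)

theorem Det.biUnion {ι : Type*} {Q : Finset ι} {J : Finset (ℕ × ℕ)} {B : ι → Set (ℕ → ℕ → I)}
    (h : ∀ i ∈ Q, Det J (B i)) : Det J (⋃ i ∈ Q, B i) := by
  refine ⟨Finset.measurableSet_biUnion Q fun i hi => (h i hi).1, fun u u' hu hm => ?_⟩
  simp only [Set.mem_iUnion] at hm ⊢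
  obtain ⟨i, hi, hm⟩ := hm
  exact ⟨i, hi, (h i hi).2 u u' hu hm⟩

theorem iIndep_lab2 : iIndepFun (fun (p : ℕ × ℕ) (u : ℕ → ℕ → I) => u p.1 p.2) lab2 := by
  unfold lab2 lab
  exact iIndepFun_uncurry_infinitePi' (X := fun _ _ x => x)
    (fun _ _ => (volume : Measure I)) (fun _ _ => measurable_id)

open Classical in
/-- extension by zero -/
noncomputable def ext0 (J : Finset (ℕ × ℕ)) (f : J → I) : ℕ → ℕ → I := fun v j =>
  if h : (v, j) ∈ J then f ⟨(v, j), h⟩ else 0

theorem ext0_meas (J : Finset (ℕ × ℕ)) : Measurable (ext0 J) := by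
  refine measurable_pi_iff.2 fun v => measurable_pi_iff.2 fun j => ?_
  unfold ext0
  by_cases h : (v, j) ∈ J
  · simp only [h, dif_pos]
    exact measurable_pi_apply _
  · simp only [h, dif_neg, not_false_eq_true]
    exact measurable_const

theorem Det.eq_preimage {J : Finset (ℕ × ℕ)} {B : Set (ℕ → ℕ → I)} (h : Det J B) :
    B = (fun u : ℕ → ℕ → I => fun p : J => u p.1.1 p.1.2) ⁻¹' (ext0 J ⁻¹' B) := by
  have key : ∀ u : ℕ → ℕ → I, ∀ p ∈ J,
      u p.1 p.2 = ext0 J (fun p : J => u p.1.1 p.1.2) p.1 p.2 := by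
    intro u p hp
    unfold ext0
    rw [dif_pos (show (p.1, p.2) ∈ J from hp)]
  ext u
  constructor
  · intro hu
    exact h.2 u _ (key u) hu
  · intro hu
    exact h.2 _ u (fun p hp => (key u p hp).symm) hu

theorem Det.indep {J J' : Finset (ℕ × ℕ)} {B B' : Set (ℕ → ℕ → I)} (h : Det J B)
    (h' : Det J' B') (hJ : Disjoint J J') : lab2 (B ∩ B') = lab2 B * lab2 B' := by
  have h1 := iIndep_lab2.indepFun_finset J J' hJ (fun p => by fun_prop)
  have h2 := h1.measure_inter_preimage_eq_mul (ext0 J ⁻¹' B) (ext0 J' ⁻¹' B')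
    (ext0_meas J h.1) (ext0_meas J' h'.1)
  rw [← h.eq_preimage, ← h'.eq_preimage] at h2
  exact h2

theorem Det.prod {ι : Type*} (Q : Finset ι) (J : ι → Finset (ℕ × ℕ))
    (B : ι → Set (ℕ → ℕ → I)) (h : ∀ i ∈ Q, Det (J i) (B i))
    (hJ : ∀ i ∈ Q, ∀ j ∈ Q, i ≠ j → Disjoint (J i) (J j)) :
    lab2 (⋂ i ∈ Q, B i) = ∏ i ∈ Q, lab2 (B i) := by
  classical
  induction Q using Finset.induction_on with
  | empty => simp
  | insert a Q ha ih =>
    rw [Finset.set_biInter_insert, Finset.prod_insert ha, ← ih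
      (fun i hi => h i (Finset.mem_insert_of_mem hi))
      (fun i hi j hj => hJ i (Finset.mem_insert_of_mem hi) j (Finset.mem_insert_of_mem hj))]
    refine Det.indep (J' := Q.biUnion J) (h a (Finset.mem_insert_self _ _)) ?_ ?_
    · exact Det.biInter fun i hi => (h i (Finset.mem_insert_of_mem hi)).mono
        (Finset.subset_biUnion_of_mem J hi)
    · rw [Finset.disjoint_biUnion_right]
      intro i hi
      exact hJ a (Finset.mem_insert_self _ _) i (Finset.mem_insert_of_mem hi)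
        (fun h => ha (h ▸ hi))

theorem lab2_coord (v j : ℕ) {D : Set I} (hD : MeasurableSet D) :
    lab2 {u | u v j ∈ D} = volume D := by
  have h1 : lab2.map (fun u : ℕ → ℕ → I => u v) = lab :=
    Measure.infinitePi_map_eval (fun _ : ℕ => lab) v
  have h2 : lab.map (fun o : ℕ → I => o j) = (volume : Measure I) :=
    Measure.infinitePi_map_eval (fun _ : ℕ => (volume : Measure I)) j
  rw [← h2, Measure.map_apply (measurable_pi_apply j) hD, ← h1,
    Measure.map_apply (measurable_pi_apply v) (measurable_pi_apply j hD)]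
  rfl

theorem Det.coord (v j : ℕ) {D : Set I} (hD : MeasurableSet D) :
    Det {(v, j)} {u | u v j ∈ D} := by
  refine ⟨?_, fun u u' hu hm => ?_⟩
  · have : Measurable fun u : ℕ → ℕ → I => u v j := by fun_prop
    exact this hD
  · have := hu (v, j) (Finset.mem_singleton_self _)
    simp only at this
    show u' v j ∈ D
    rw [← this]
    exact hm

end Pool.Agent.J4H89.WU
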