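import Mathlib
import Pool.Agent.J4H89.WU.Det
import Pool.Agent.TH830.UBase

/-!
# The law of the configuration in a cell
-/

namespace Pool.Agent.J4H89.WU

open MeasureTheory Filter Topology ProbabilityTheory
open Pool.Agent.TH968.UST
open scoped ENNReal unitInterval

theorem X_succ (F : Rule) (G : SimpleGraph ℕ) (P : ℕ → ℕ → Finset ℕ) (o : ℕ → I)
    (u : ℕ → ℕ → I) (k x : ℕ) : X F G P o u (k + 1) x =
      upd F (te G (P (k + 1) x)) (P (k + 1) x) ((P (k + 1) x).image (P k))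
      ((P (k + 1) x).biUnion (X F G P o u k)) o (sel o u (P (k + 1) x) k) := rfl

theorem X_sub_inn (F : Rule) (G : SimpleGraph ℕ) (P : ℕ → ℕ → Finset ℕ) (o : ℕ → I)
    (u : ℕ → ℕ → I) (k x : ℕ) : X F G P o u k x ⊆ inn (te G (P k x)) (P k x) := by
  cases k with
  | zero => exact Finset.empty_subset _
  | succ k =>
    intro e he
    rw [X_succ, mem_upd] at he
    exact he.1

theorem te_mono {G : SimpleGraph ℕ} {B C : Finset ℕ} (hC : (touch G C).Finite) (h : B ⊆ C) :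
    te G B ⊆ te G C := by
  intro e he
  obtain ⟨h1, v, hv, h2⟩ := te_sub he
  exact (mem_te hC).2 ⟨h1, v, h hv, h2⟩

theorem touch_finite_mono {G : SimpleGraph ℕ} {B C : Finset ℕ} (hC : (touch G C).Finite)
    (h : B ⊆ C) : (touch G B).Finite := by
  refine hC.subset ?_
  rintro e ⟨h1, v, hv, h2⟩
  exact ⟨h1, v, h hv, h2⟩

theorem tch_te {G : SimpleGraph ℕ} {B C : Finset ℕ} (hC : (touch G C).Finite) (h : B ⊆ C) :
    tch (te G C) B = te G B := by
  ext e
  rw [mem_tch, mem_te hC, mem_te (touch_finite_mono hC h)]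
  constructor
  · rintro ⟨⟨h1, -⟩, h2⟩
    exact ⟨h1, h2⟩
  · rintro ⟨h1, v, hv, h2⟩
    exact ⟨⟨h1, v, h hv, h2⟩, v, hv, h2⟩

theorem inn_te {G : SimpleGraph ℕ} {B C : Finset ℕ} (hC : (touch G C).Finite) (h : B ⊆ C) :
    inn (te G C) B = inn (te G B) B := by
  ext e
  rw [mem_inn, mem_inn, mem_te hC, mem_te (touch_finite_mono hC h)]
  constructor
  · rintro ⟨⟨h1, -⟩, h2⟩
    refine ⟨⟨h1, ?_⟩, h2⟩
    induction e using Sym2.ind with
    | _ a b => exact ⟨a, h2 a (by simp), by simp⟩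
  · rintro ⟨⟨h1, v, hv, h2⟩, h3⟩
    exact ⟨⟨h1, v, h hv, h2⟩, h3⟩

theorem mu_te {G : SimpleGraph ℕ} {B C : Finset ℕ} (hC : (touch G C).Finite) (h : B ⊆ C)
    (S : Finset (Sym2 ℕ)) : mu (te G C) B S = mu (te G B) B S := by
  unfold mu
  rw [tch_te hC h, inn_te hC h, tch_te (touch_finite_mono hC h) (Finset.Subset.refl _)]

theorem inn_mono {E : Finset (Sym2 ℕ)} {B C : Finset ℕ} (h : B ⊆ C) : inn E B ⊆ inn E C := by
  intro e he
  rw [mem_inn] at he ⊢
  exact ⟨he.1, fun v hv => h (he.2 v hv)⟩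

theorem mu_zero {E : Finset (Sym2 ℕ)} {C : Finset ℕ} {S : Finset (Sym2 ℕ)}
    (h : ¬ S ⊆ inn E C) : mu E C S = 0 := by
  unfold mu
  have : (trees (wired C) (tch E C)).filter (fun T => T ∩ inn E C = S) = ∅ := by
    rw [Finset.filter_eq_empty_iff]
    intro T _ hT
    exact h (hT ▸ Finset.inter_subset_right)
  rw [this]
  simp

theorem inn_singleton (G : SimpleGraph ℕ) (x : ℕ) : inn (te G {x}) {x} = ∅ := by
  rw [Finset.eq_empty_iff_forall_notMem]
  intro e he
  rw [mem_inn] at he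
  obtain ⟨h1, -⟩ := te_sub he.1
  have h2 := he.2
  induction e using Sym2.ind with
  | _ a b =>
    have ha := Finset.mem_singleton.1 (h2 a (by simp))
    have hb := Finset.mem_singleton.1 (h2 b (by simp))
    rw [ha, hb] at h1
    exact G.loopless.irrefl x h1

theorem trees_nonempty (r : Setoid ℕ) (E : Finset (Sym2 ℕ)) : (trees r E).Nonempty :=
  Pool.Agent.TH830.UST.trees_nonempty r E


theorem map_injOn {r : ℕ → ℕ} {A : Set ℕ} (hr : Set.InjOn r A) {e e' : Sym2 ℕ}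
    (he : ∀ v ∈ e, v ∈ A) (he' : ∀ v ∈ e', v ∈ A) (h : Sym2.map r e = Sym2.map r e') :
    e = e' := by
  induction e using Sym2.ind with
  | _ a b =>
    induction e' using Sym2.ind with
    | _ c d =>
      have ha := he a (by simp)
      have hb := he b (by simp)
      have hc := he' c (by simp)
      have hd := he' d (by simp)
      rw [Sym2.map_mk, Sym2.map_mk] at h
      rcases Sym2.eq_iff.1 h with ⟨h1, h2⟩ | ⟨h1, h2⟩
      · rw [hr ha hc h1, hr hb hd h2]
      · rw [hr ha hd h1, hr hb hc h2]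
        exact Sym2.eq_swap

theorem inn_image {E : Finset (Sym2 ℕ)} {C : Finset ℕ} {r : ℕ → ℕ}
    (hr : Set.InjOn r (hull E C : Set ℕ)) :
    inn (E.image (Sym2.map r)) (C.image r) = (inn E C).image (Sym2.map r) := by
  ext f
  rw [mem_inn, Finset.mem_image, Finset.mem_image]
  constructor
  · rintro ⟨⟨e, he, rfl⟩, h⟩
    refine ⟨e, mem_inn.2 ⟨he, ?_⟩, rfl⟩
    intro v hv
    have h1 := h (r v) (Sym2.mem_map.2 ⟨v, hv, rfl⟩)
    obtain ⟨c, hc, hcv⟩ := Finset.mem_image.1 h1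
    have h2 : v = c := hr (mem_hull.2 (Or.inr ⟨e, he, hv⟩)) (mem_hull.2 (Or.inl hc)) hcv.symm
    rw [h2]
    exact hc
  · rintro ⟨e, he, rfl⟩
    rw [mem_inn] at he
    refine ⟨⟨e, he.1, rfl⟩, ?_⟩
    intro w hw
    obtain ⟨v, hv, rfl⟩ := Sym2.mem_map.1 hw
    exact Finset.mem_image_of_mem r (he.2 v hv)

theorem image_inj {E : Finset (Sym2 ℕ)} {C : Finset ℕ} {r : ℕ → ℕ}
    (hr : Set.InjOn r (hull E C : Set ℕ)) {S S' : Finset (Sym2 ℕ)} (hS : S ⊆ E) (hS' : S' ⊆ E)
    (h : S.image (Sym2.map r) = S'.image (Sym2.map r)) : S = S' := by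
  have key : ∀ S S' : Finset (Sym2 ℕ), S ⊆ E → S' ⊆ E →
      S.image (Sym2.map r) = S'.image (Sym2.map r) → S ⊆ S' := by
    intro S S' hS hS' h e he
    have h1 : Sym2.map r e ∈ S'.image (Sym2.map r) := h ▸ Finset.mem_image_of_mem _ he
    obtain ⟨e', he', h2⟩ := Finset.mem_image.1 h1
    have h3 : e' = e := map_injOn hr (fun v hv => mem_hull.2 (Or.inr ⟨e', hS' he', hv⟩))
      (fun v hv => mem_hull.2 (Or.inr ⟨e, hS he, hv⟩)) h2
    rw [← h3]
    exact he'
  exact (key S S' hS hS' h).antisymm (key S' S hS' hS h.symm)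

theorem inn_sub (E : Finset (Sym2 ℕ)) (C : Finset ℕ) : inn E C ⊆ E :=
  fun _ he => (mem_inn.1 he).1

theorem upd_eq_iff {F : Rule} (hF : KerSpec F) {E : Finset (Sym2 ℕ)} {C : Finset ℕ}
    {Q : Finset (Finset ℕ)} {S S' : Finset (Sym2 ℕ)} {o : ℕ → I} {w : I}
    (hr : Set.InjOn (rk o (hull E C)) (hull E C : Set ℕ)) (hS' : S' ⊆ inn E C) :
    upd F E C Q S o w = S' ↔ F (E.image (Sym2.map (rk o (hull E C))))
      (C.image (rk o (hull E C))) (Q.image fun B => B.image (rk o (hull E C)))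
        (S.image (Sym2.map (rk o (hull E C)))) w = S'.image (Sym2.map (rk o (hull E C))) := by
  have hsub := hF.inn (E.image (Sym2.map (rk o (hull E C))))
      (C.image (rk o (hull E C))) (Q.image fun B => B.image (rk o (hull E C)))
        (S.image (Sym2.map (rk o (hull E C)))) w
  rw [inn_image hr] at hsub
  constructor
  · intro h
    ext f
    rw [Finset.mem_image]
    constructor
    · intro hf
      obtain ⟨e, he, rfl⟩ := Finset.mem_image.1 (hsub hf)
      exact ⟨e, h ▸ mem_upd.2 ⟨he, hf⟩, rfl⟩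
    · rintro ⟨e, he, rfl⟩
      rw [← h, mem_upd] at he
      exact he.2
  · intro h
    ext e
    rw [mem_upd, h]
    constructor
    · rintro ⟨h1, h2⟩
      obtain ⟨e', he', h3⟩ := Finset.mem_image.1 h2
      have h4 : e' = e := map_injOn hr
        (fun v hv => mem_hull.2 (Or.inr ⟨e', inn_sub _ _ (hS' he'), hv⟩))
        (fun v hv => mem_hull.2 (Or.inr ⟨e, inn_sub _ _ h1, hv⟩)) h3
      rw [← h4]
      exact he'
    · intro he
      exact ⟨hS' he, Finset.mem_image_of_mem _ he⟩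

theorem upd_sub_inn {F : Rule} {E : Finset (Sym2 ℕ)} {C : Finset ℕ}
    {Q : Finset (Finset ℕ)} {S : Finset (Sym2 ℕ)} {o : ℕ → I} {w : I} :
    upd F E C Q S o w ⊆ inn E C := fun _ he => (mem_upd.1 he).1

theorem sub_upd {F : Rule} (hF : KerSpec F) {E : Finset (Sym2 ℕ)} {C : Finset ℕ}
    {Q : Finset (Finset ℕ)} {S : Finset (Sym2 ℕ)} {o : ℕ → I} {w : I} (hS : S ⊆ inn E C) :
    S ⊆ upd F E C Q S o w := by
  intro e he
  rw [mem_upd]
  refine ⟨hS he, hF.sub _ _ _ _ _ ?_ (Finset.mem_image_of_mem _ he)⟩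
  intro f hf
  obtain ⟨e', he', rfl⟩ := Finset.mem_image.1 hf
  have h1 := mem_inn.1 (hS he')
  rw [mem_inn]
  refine ⟨Finset.mem_image_of_mem _ h1.1, ?_⟩
  intro w hw
  obtain ⟨v, hv, rfl⟩ := Sym2.mem_map.1 hw
  exact Finset.mem_image_of_mem _ (h1.2 v hv)

theorem part_image {C : Finset ℕ} {Q : Finset (Finset ℕ)} (h : IsPart C Q) {r : ℕ → ℕ}
    (hr : Set.InjOn r (C : Set ℕ)) : IsPart (C.image r) (Q.image fun B => B.image r) := by
  have hsub : ∀ B ∈ Q, B ⊆ C := fun B hB => by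
    rw [← h.1]
    exact Finset.subset_biUnion_of_mem id hB
  refine ⟨?_, ?_⟩
  · ext w
    rw [Finset.mem_biUnion, Finset.mem_image]
    constructor
    · rintro ⟨B', hB', hw⟩
      obtain ⟨B, hB, rfl⟩ := Finset.mem_image.1 hB'
      obtain ⟨v, hv, rfl⟩ := Finset.mem_image.1 hw
      exact ⟨v, hsub B hB hv, rfl⟩
    · rintro ⟨v, hv, rfl⟩
      rw [← h.1, Finset.mem_biUnion] at hv
      obtain ⟨B, hB, hv⟩ := hv
      exact ⟨B.image r, Finset.mem_image_of_mem _ hB, Finset.mem_image_of_mem r hv⟩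
  · intro B₁ hB₁ B₂ hB₂ hne
    obtain ⟨B, hB, rfl⟩ := Finset.mem_image.1 hB₁
    obtain ⟨B', hB', rfl⟩ := Finset.mem_image.1 hB₂
    have hne' : B ≠ B' := fun k => hne (by rw [k])
    rw [Finset.disjoint_left]
    intro w hw hw'
    obtain ⟨v, hv, rfl⟩ := Finset.mem_image.1 hw
    obtain ⟨v', hv', h3⟩ := Finset.mem_image.1 hw'
    have h4 : v' = v := hr (hsub B' hB' hv') (hsub B hB hv) h3
    rw [h4] at hv'
    exact (Finset.disjoint_left.1 (h.2 B hB B' hB' hne')) hv hv'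

/-- the sum which gives the law after one update -/
theorem sum_upd (hT : S_TRANS) {F : Rule} (hF : KerSpec F) {E : Finset (Sym2 ℕ)} {C : Finset ℕ}
    {Q : Finset (Finset ℕ)} (hQ : IsPart C Q) {S' : Finset (Sym2 ℕ)} {o : ℕ → I}
    (hr : Set.InjOn (rk o (hull E C)) (hull E C : Set ℕ)) (hS' : S' ⊆ inn E C) :
    ∑ S ∈ (inn E C).powerset, nu E Q S * (volume {w | upd F E C Q S o w = S'}).toReal =
      mu E C S' := by
  have hCr : Set.InjOn (rk o (hull E C)) (C : Set ℕ) :=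
    hr.mono fun v hv => mem_hull.2 (Or.inl hv)
  have hsub : ∀ B ∈ Q, B ⊆ C := fun B hB => by
    rw [← hQ.1]
    exact Finset.subset_biUnion_of_mem id hB
  have h1 := hF.law (E.image (Sym2.map (rk o (hull E C)))) (C.image (rk o (hull E C)))
    (Q.image fun B => B.image (rk o (hull E C))) (part_image hQ hCr)
    (S'.image (Sym2.map (rk o (hull E C))))
  obtain ⟨t1, t2⟩ := hT E C (rk o (hull E C)) hr
  rw [t1 S' (hS'.trans (inn_sub _ _)), inn_image hr] at h1
  rw [← h1]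
  refine Finset.sum_nbij' (fun S => S.image (Sym2.map (rk o (hull E C))))
    (fun T => (inn E C).filter fun e => Sym2.map (rk o (hull E C)) e ∈ T) ?_ ?_ ?_ ?_ ?_
  · intro S hS
    rw [Finset.mem_powerset] at hS ⊢
    exact Finset.image_subset_image hS
  · intro T _
    rw [Finset.mem_powerset]
    exact Finset.filter_subset _ _
  · intro S hS
    rw [Finset.mem_powerset] at hS
    ext e
    rw [Finset.mem_filter]
    constructor
    · rintro ⟨h2, h3⟩
      obtain ⟨e', he', h3⟩ := Finset.mem_image.1 h3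
      have h4 : e' = e := map_injOn hr
        (fun v hv => mem_hull.2 (Or.inr ⟨e', inn_sub _ _ (hS he'), hv⟩))
        (fun v hv => mem_hull.2 (Or.inr ⟨e, inn_sub _ _ h2, hv⟩)) h3
      rw [← h4]
      exact he'
    · intro he
      exact ⟨hS he, Finset.mem_image_of_mem _ he⟩
  · intro T hT
    rw [Finset.mem_powerset] at hT
    ext f
    rw [Finset.mem_image]
    constructor
    · rintro ⟨e, he, rfl⟩
      exact (Finset.mem_filter.1 he).2
    · intro hf
      obtain ⟨e, he, rfl⟩ := Finset.mem_image.1 (hT hf)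
      exact ⟨e, Finset.mem_filter.2 ⟨he, hf⟩, rfl⟩
  · intro S hS
    rw [Finset.mem_powerset] at hS
    rw [t2 Q hsub S (hS.trans (inn_sub _ _))]
    congr 2
    congr 1
    ext w
    exact upd_eq_iff hF hr hS'

end Pool.Agent.J4H89.WU
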