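import Mathlib
import Pool.Agent.J4H89.WU.Law

/-!
# The law of the configuration in a cell: the induction
-/

namespace Pool.Agent.J4H89.WU

open MeasureTheory Filter Topology ProbabilityTheory
open Pool.Agent.TH968.UST
open scoped ENNReal unitInterval

section

variable {G : SimpleGraph ℕ} {x0 : ℕ} {P : ℕ → ℕ → Finset ℕ}

theorem X_const (F : Rule) (hP : Tower G (comp G x0) P) (o : ℕ → I) (u : ℕ → ℕ → I) (k : ℕ)
    {x y : ℕ} (hx : x ∈ comp G x0) (hy : y ∈ P k x) : X F G P o u k y = X F G P o u k x := by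
  cases k with
  | zero => rfl
  | succ k => rw [X_succ, X_succ, hP.eq (k + 1) x hx y hy]

theorem part_cells (hP : Tower G (comp G x0) P) (k : ℕ) {x : ℕ} (hx : x ∈ comp G x0) :
    IsPart (P (k + 1) x) ((P (k + 1) x).image (P k)) := by
  have hK : ∀ y ∈ P (k + 1) x, y ∈ comp G x0 := fun y hy => hP.sub (k + 1) x hx hy
  refine ⟨?_, ?_⟩
  · ext y
    rw [Finset.mem_biUnion]
    constructor
    · rintro ⟨B, hB, hy⟩
      obtain ⟨z, hz, rfl⟩ := Finset.mem_image.1 hB
      have h1 := hP.mono k z (hK z hz) hy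
      rw [hP.eq (k + 1) x hx z hz] at h1
      exact h1
    · intro hy
      exact ⟨P k y, Finset.mem_image_of_mem _ hy, hP.self k y (hK y hy)⟩
  · intro B hB B' hB' hne
    obtain ⟨y, hy, rfl⟩ := Finset.mem_image.1 hB
    obtain ⟨z, hz, rfl⟩ := Finset.mem_image.1 hB'
    rw [Finset.disjoint_left]
    intro w hw hw'
    apply hne
    rw [← hP.eq k y (hK y hy) w hw, hP.eq k z (hK z hz) w hw']

theorem sub_cell (hP : Tower G (comp G x0) P) (k : ℕ) {x y : ℕ} (hx : x ∈ comp G x0)
    (hy : y ∈ P (k + 1) x) : P k y ⊆ P (k + 1) x := by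
  have h1 := hP.mono k y (hP.sub (k + 1) x hx hy)
  rwa [hP.eq (k + 1) x hx y hy] at h1

theorem biUnion_sub_inn (F : Rule) (hG : LocFin G x0) (hP : Tower G (comp G x0) P) (o : ℕ → I)
    (u : ℕ → ℕ → I) (k : ℕ) {x : ℕ} (hx : x ∈ comp G x0) :
    (P (k + 1) x).biUnion (X F G P o u k) ⊆ inn (te G (P (k + 1) x)) (P (k + 1) x) := by
  intro e he
  obtain ⟨y, hy, he⟩ := Finset.mem_biUnion.1 he
  have h1 := X_sub_inn F G P o u k y he
  have hfin := touch_finite hG (hP.sub (k + 1) x hx)
  have h2 := sub_cell hP k hx hy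
  rw [← inn_te hfin h2] at h1
  exact inn_mono h2 h1

theorem X_mono {F : Rule} (hF : KerSpec F) (hG : LocFin G x0) (hP : Tower G (comp G x0) P)
    (o : ℕ → I) (u : ℕ → ℕ → I) (k : ℕ) {x : ℕ} (hx : x ∈ comp G x0) :
    X F G P o u k x ⊆ X F G P o u (k + 1) x := by
  intro e he
  rw [X_succ]
  exact sub_upd hF (biUnion_sub_inn F hG hP o u k hx)
    (Finset.mem_biUnion.2 ⟨x, hP.self (k + 1) x hx, he⟩)

theorem hull_sub (hG : LocFin G x0) {C : Finset ℕ} (hC : (C : Set ℕ) ⊆ comp G x0) :
    (hull (te G C) C : Set ℕ) ⊆ comp G x0 := by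
  intro v hv
  rcases mem_hull.1 (Finset.mem_coe.1 hv) with h | ⟨e, he, hve⟩
  · exact hC h
  · obtain ⟨h1, w, hw, h2⟩ := te_sub he
    by_cases hvw : v = w
    · rw [hvw]; exact hC hw
    · have h3 : e = s(v, w) := ((Sym2.mem_and_mem_iff hvw).1 ⟨hve, h2⟩)
      rw [h3] at h1
      exact comp_adj (hC hw) ((SimpleGraph.mem_edgeSet G).1 h1).symm

theorem sel_eq {o : ℕ → I} {C : Finset ℕ} (ho : Set.InjOn o (C : Set ℕ)) (hC : C.Nonempty) :
    ∃ m ∈ C, ∀ u k, sel o u C k = u m k := by
  classical
  obtain ⟨m, hm, hmin⟩ := Finset.exists_min_image C o hC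
  refine ⟨m, hm, fun u k => ?_⟩
  have h1 : (C.filter fun v => ∀ w ∈ C, o v ≤ o w) = {m} := by
    ext v
    rw [Finset.mem_filter, Finset.mem_singleton]
    constructor
    · rintro ⟨hv, h⟩
      exact ho hv hm (le_antisymm (h m hm) (hmin v hv))
    · rintro rfl
      exact ⟨hm, hmin⟩
  unfold sel
  rw [h1, Finset.sup_singleton]

/-- the two assertions which are proved by induction -/
def LawAt (F : Rule) (G : SimpleGraph ℕ) (x0 : ℕ) (P : ℕ → ℕ → Finset ℕ) (o : ℕ → I) (k : ℕ) :
    Prop :=
  ∀ x ∈ comp G x0, ∀ S, Det (P k x ×ˢ Finset.range k) {u | X F G P o u k x = S} ∧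
    (lab2 {u | X F G P o u k x = S}).toReal = mu (te G (P k x)) (P k x) S

theorem lawAt_zero (F : Rule) (hP : Tower G (comp G x0) P) (o : ℕ → I) :
    LawAt F G x0 P o 0 := by
  intro x hx S
  by_cases hS : S = ∅
  · have h1 : {u | X F G P o u 0 x = S} = Set.univ := by
      ext u
      simp [X, hS]
    rw [h1]
    refine ⟨Det.univ _, ?_⟩
    rw [hP.zero x hx, hS]
    unfold mu
    rw [inn_singleton]
    have h2 : ((trees (wired {x}) (tch (te G {x}) {x})).filter fun T => T ∩ ∅ = ∅) =
        trees (wired {x}) (tch (te G {x}) {x}) := by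
      rw [Finset.filter_true_of_mem]
      intro T _
      exact Finset.inter_empty T
    rw [h2, div_self]
    · simp
    · exact_mod_cast (Finset.card_pos.2 (trees_nonempty _ _)).ne'
  · have h1 : {u | X F G P o u 0 x = S} = ∅ := by
      ext u
      simp only [X, Set.mem_ofPred_eq, Set.mem_empty_iff_false, iff_false]
      exact fun h => hS h.symm
    rw [h1]
    refine ⟨Det.empty _, ?_⟩
    rw [hP.zero x hx, mu_zero]
    · simp
    · rw [inn_singleton, Finset.subset_empty]
      exact hS

/-- law of the union over the subcells -/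
theorem law_union {F : Rule} (hG : LocFin G x0) (hP : Tower G (comp G x0) P)
    (o : ℕ → I) (k : ℕ) (ih : LawAt F G x0 P o k) {x : ℕ} (hx : x ∈ comp G x0)
    (S : Finset (Sym2 ℕ)) :
    Det (P (k + 1) x ×ˢ Finset.range k) {u | (P (k + 1) x).biUnion (X F G P o u k) = S} ∧
    (lab2 {u | (P (k + 1) x).biUnion (X F G P o u k) = S}).toReal =
      nu (te G (P (k + 1) x)) ((P (k + 1) x).image (P k)) S := by
  classical
  have hfin := touch_finite hG (hP.sub (k + 1) x hx)
  have hK : ∀ y ∈ P (k + 1) x, y ∈ comp G x0 := fun y hy => hP.sub (k + 1) x hx hy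
  have hpart := part_cells hP k hx
  have hrep : ∀ B : Finset ℕ, ∃ y, B ∈ (P (k + 1) x).image (P k) → y ∈ P (k + 1) x ∧ P k y = B := by
    intro B
    by_cases hB : B ∈ (P (k + 1) x).image (P k)
    · obtain ⟨y, hy, h⟩ := Finset.mem_image.1 hB
      exact ⟨y, fun _ => ⟨hy, h⟩⟩
    · exact ⟨0, fun h => absurd h hB⟩
  choose rep hrep using hrep
  -- the union over the members
  have hX : ∀ u, (P (k + 1) x).biUnion (X F G P o u k) =
      ((P (k + 1) x).image (P k)).biUnion fun B => X F G P o u k (rep B) := by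
    intro u
    ext e
    rw [Finset.mem_biUnion, Finset.mem_biUnion]
    constructor
    · rintro ⟨y, hy, he⟩
      have hB : P k y ∈ (P (k + 1) x).image (P k) := Finset.mem_image_of_mem _ hy
      obtain ⟨h1, h2⟩ := hrep _ hB
      refine ⟨P k y, hB, ?_⟩
      have h3 : y ∈ P k (rep (P k y)) := by
        rw [h2]; exact hP.self k y (hK y hy)
      rw [← X_const F hP o u k (hK _ h1) h3]
      exact he
    · rintro ⟨B, hB, he⟩
      obtain ⟨h1, h2⟩ := hrep _ hB
      exact ⟨rep B, h1, he⟩
  have hXinn : ∀ u, ∀ B ∈ (P (k + 1) x).image (P k),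
      X F G P o u k (rep B) ⊆ inn (te G (P (k + 1) x)) B := by
    intro u B hB
    obtain ⟨h1, h2⟩ := hrep _ hB
    have h3 := X_sub_inn F G P o u k (rep B)
    rw [h2] at h3
    have h4 : B ⊆ P (k + 1) x := by
      rw [← h2]; exact sub_cell hP k hx h1
    rwa [inn_te hfin h4]
  have hdisj : ∀ B ∈ (P (k + 1) x).image (P k), ∀ B' ∈ (P (k + 1) x).image (P k), B ≠ B' →
      ∀ e, e ∈ inn (te G (P (k + 1) x)) B → e ∉ inn (te G (P (k + 1) x)) B' := by
    intro B hB B' hB' hne e he he'
    have h1 := (mem_inn.1 he).2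
    have h2 := (mem_inn.1 he').2
    induction e using Sym2.ind with
    | _ a b =>
      exact Finset.disjoint_left.1 (hpart.2 B hB B' hB' hne) (h1 a (by simp)) (h2 a (by simp))
  by_cases hS : S ⊆ ((P (k + 1) x).image (P k)).biUnion (inn (te G (P (k + 1) x)))
  · have hEq : {u | (P (k + 1) x).biUnion (X F G P o u k) = S} =
        ⋂ B ∈ (P (k + 1) x).image (P k),
          {u | X F G P o u k (rep B) = S ∩ inn (te G (P (k + 1) x)) B} := by
      ext u
      simp only [Set.mem_iInter, Set.mem_ofPred_eq]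
      rw [hX u]
      constructor
      · intro h B hB
        ext e
        rw [Finset.mem_inter, ← h, Finset.mem_biUnion]
        constructor
        · intro he
          exact ⟨⟨B, hB, he⟩, hXinn u B hB he⟩
        · rintro ⟨⟨B', hB', he⟩, he2⟩
          by_cases hBB : B' = B
          · rw [← hBB]; exact he
          · exact absurd he2 (hdisj B' hB' B hB hBB e (hXinn u B' hB' he))
      · intro h
        ext e
        rw [Finset.mem_biUnion]
        constructor
        · rintro ⟨B, hB, he⟩
          rw [h B hB] at he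
          exact (Finset.mem_inter.1 he).1
        · intro he
          obtain ⟨B, hB, he2⟩ := Finset.mem_biUnion.1 (hS he)
          exact ⟨B, hB, by rw [h B hB]; exact Finset.mem_inter.2 ⟨he, he2⟩⟩
    have hDet : ∀ B ∈ (P (k + 1) x).image (P k), Det (B ×ˢ Finset.range k)
        {u | X F G P o u k (rep B) = S ∩ inn (te G (P (k + 1) x)) B} := by
      intro B hB
      obtain ⟨h1, h2⟩ := hrep _ hB
      have h3 := (ih (rep B) (hK _ h1) (S ∩ inn (te G (P (k + 1) x)) B)).1
      rwa [h2] at h3
    have hJ : ∀ B ∈ (P (k + 1) x).image (P k), ∀ B' ∈ (P (k + 1) x).image (P k), B ≠ B' →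
        Disjoint (B ×ˢ Finset.range k) (B' ×ˢ Finset.range k) := by
      intro B hB B' hB' hne
      rw [Finset.disjoint_product]
      exact Or.inl (hpart.2 B hB B' hB' hne)
    rw [hEq]
    refine ⟨Det.biInter fun B hB => (hDet B hB).mono ?_, ?_⟩
    · obtain ⟨h1, h2⟩ := hrep _ hB
      refine Finset.product_subset_product ?_ (Finset.Subset.refl _)
      rw [← h2]
      exact sub_cell hP k hx h1
    · rw [Det.prod _ (fun B => B ×ˢ Finset.range k) _ hDet hJ, ENNReal.toReal_prod]
      unfold nu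
      rw [if_pos hS]
      refine Finset.prod_congr rfl fun B hB => ?_
      obtain ⟨h1, h2⟩ := hrep _ hB
      have h3 := (ih (rep B) (hK _ h1) (S ∩ inn (te G (P (k + 1) x)) B)).2
      rw [h2] at h3
      rw [h3, mu_te hfin]
      rw [← h2]
      exact sub_cell hP k hx h1
  · have hEq : {u | (P (k + 1) x).biUnion (X F G P o u k) = S} = ∅ := by
      ext u
      simp only [Set.mem_ofPred_eq, Set.mem_empty_iff_false, iff_false]
      intro h
      apply hS
      rw [← h, hX u]
      intro e he
      obtain ⟨B, hB, he⟩ := Finset.mem_biUnion.1 he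
      exact Finset.mem_biUnion.2 ⟨B, hB, hXinn u B hB he⟩
    rw [hEq]
    refine ⟨Det.empty _, ?_⟩
    unfold nu
    rw [if_neg hS]
    simp

theorem lawAt_succ (hT : S_TRANS) {F : Rule} (hF : KerSpec F) (hG : LocFin G x0)
    (hP : Tower G (comp G x0) P) {o : ℕ → I} (ho : Set.InjOn o (comp G x0)) (k : ℕ)
    (ih : LawAt F G x0 P o k) : LawAt F G x0 P o (k + 1) := by
  classical
  intro x hx S'
  have hCK := hP.sub (k + 1) x hx
  have hne : (P (k + 1) x).Nonempty := ⟨x, hP.self (k + 1) x hx⟩
  obtain ⟨m, hm, hsel⟩ := sel_eq (ho.mono hCK) hne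
  set C := P (k + 1) x with hC
  set E := te G C with hE
  have hr : Set.InjOn (rk o (hull E C)) (hull E C : Set ℕ) :=
    rk_inj (ho.mono (hull_sub hG hCK))
  have hX : ∀ u, X F G P o u (k + 1) x =
      upd F E C (C.image (P k)) (C.biUnion (X F G P o u k)) o (u m k) := by
    intro u
    rw [X_succ, ← hC, ← hE, hsel]
  by_cases hS' : S' ⊆ inn E C
  · have hDm : ∀ S, MeasurableSet {w : I | upd F E C (C.image (P k)) S o w = S'} := by
      intro S
      have h1 := hF.meas (E.image (Sym2.map (rk o (hull E C))))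
        (C.image (rk o (hull E C))) ((C.image (P k)).image fun B => B.image (rk o (hull E C)))
        (S.image (Sym2.map (rk o (hull E C)))) (S'.image (Sym2.map (rk o (hull E C))))
      convert h1 using 1
      ext w
      exact upd_eq_iff hF hr hS'
    have hEq : {u | X F G P o u (k + 1) x = S'} = ⋃ S ∈ (inn E C).powerset,
        ({u | C.biUnion (X F G P o u k) = S} ∩
          {u : ℕ → ℕ → I | u m k ∈ {w : I | upd F E C (C.image (P k)) S o w = S'}}) := by
      ext u
      simp only [Set.mem_iUnion, Set.mem_ofPred_eq, Set.mem_inter_iff]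
      rw [hX u]
      constructor
      · intro h
        exact ⟨C.biUnion (X F G P o u k),
          Finset.mem_powerset.2 (biUnion_sub_inn F hG hP o u k hx), rfl, h⟩
      · rintro ⟨S, _, h1, h2⟩
        rw [h1]
        exact h2
    have hDet1 : ∀ S, Det (C ×ˢ Finset.range k) {u | C.biUnion (X F G P o u k) = S} :=
      fun S => (law_union hG hP o k ih hx S).1
    have hmk : ({(m, k)} : Finset (ℕ × ℕ)) ⊆ C ×ˢ Finset.range (k + 1) := by
      rw [Finset.singleton_subset_iff, Finset.mem_product]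
      exact ⟨hm, Finset.self_mem_range_succ k⟩
    have hdis : Disjoint (C ×ˢ Finset.range k) ({(m, k)} : Finset (ℕ × ℕ)) := by
      rw [Finset.disjoint_singleton_right, Finset.mem_product]
      rintro ⟨-, h⟩
      exact absurd h (by simp)
    have hDet2 : ∀ S ∈ (inn E C).powerset, Det (C ×ˢ Finset.range (k + 1))
        ({u | C.biUnion (X F G P o u k) = S} ∩
          {u : ℕ → ℕ → I | u m k ∈ {w : I | upd F E C (C.image (P k)) S o w = S'}}) := by
      intro S _
      refine Det.inter ((hDet1 S).mono ?_) ((Det.coord m k (hDm S)).mono hmk)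
      exact Finset.product_subset_product (Finset.Subset.refl _)
        (Finset.range_subset_range.2 (Nat.le_succ k))
    rw [hEq]
    refine ⟨Det.biUnion hDet2, ?_⟩
    rw [measure_biUnion_finset ?_ fun S hS => (hDet2 S hS).1]
    · rw [ENNReal.toReal_sum fun S _ => measure_ne_top _ _, ← sum_upd hT hF
        (part_cells hP k hx) hr hS']
      refine Finset.sum_congr rfl fun S _ => ?_
      rw [(hDet1 S).indep (Det.coord m k (hDm S)) hdis, ENNReal.toReal_mul,
        (law_union hG hP o k ih hx S).2, lab2_coord m k (hDm S)]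
    · intro S _ S₂ _ hne
      rw [Function.onFun, Set.disjoint_left]
      rintro u ⟨h1, -⟩ ⟨h2, -⟩
      exact hne (h1.symm.trans h2)
  · have hEq : {u | X F G P o u (k + 1) x = S'} = ∅ := by
      ext u
      simp only [Set.mem_ofPred_eq, Set.mem_empty_iff_false, iff_false]
      intro h
      apply hS'
      rw [← h, hX u]
      exact upd_sub_inn
    rw [hEq, mu_zero hS']
    exact ⟨Det.empty _, by simp⟩

end

theorem t_LAW (hT : S_TRANS) : S_LAW := by
  intro F hF G x0 hG P hP o ho k x hx
  have h : ∀ k, LawAt F G x0 P o k := by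
    intro k
    induction k with
    | zero => exact lawAt_zero F hP o
    | succ k ih => exact lawAt_succ hT hF hG hP ho k ih
  exact ⟨fun S => (h k x hx S).1.1, fun S => (h k x hx S).2,
    fun u => X_mono hF hG hP o u k hx, fun u => X_sub_inn F G P o u k x⟩

end Pool.Agent.J4H89.WU
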