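import Mathlib
import Pool.Agent.J4H89.WU.Law2
import Pool.Agent.J4H89.WU.Dom

/-!
# The law of the final configuration is the limit along the cells
-/

namespace Pool.Agent.J4H89.WU

open MeasureTheory Filter Topology
open Pool.Agent.TH968.UST Pool.Agent.TH830.UST Pool.Agent.TH830.J74
open scoped ENNReal unitInterval

theorem t_USTP : S_USTP := by
  classical
  intro r E F A
  unfold ustProb
  have h1 : {T : Set (Sym2 ℕ) | IsSpan r (E : Set (Sym2 ℕ)) T ∧ T ∩ (F : Set (Sym2 ℕ)) = A} =
      (fun S : Finset (Sym2 ℕ) => (S : Set (Sym2 ℕ))) ''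
        (((trees r E).filter fun T => T ∩ F = A : Finset (Finset (Sym2 ℕ))) :
          Set (Finset (Sym2 ℕ))) := by
    ext T
    rw [Set.mem_image]
    constructor
    · rintro ⟨h1, h2⟩
      have hfin : T.Finite := E.finite_toSet.subset h1.1
      refine ⟨hfin.toFinset, ?_, hfin.coe_toFinset⟩
      rw [Finset.mem_coe, Finset.mem_filter]
      constructor
      · unfold trees
        rw [Finset.mem_filter, Finset.mem_powerset]
        refine ⟨?_, ?_⟩
        · rw [← Finset.coe_subset, hfin.coe_toFinset]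
          exact h1.1
        · rw [hfin.coe_toFinset]
          exact h1
      · rw [← Finset.coe_inj, Finset.coe_inter, hfin.coe_toFinset]
        exact h2
    · rintro ⟨S, hS, rfl⟩
      rw [Finset.mem_coe, Finset.mem_filter] at hS
      unfold trees at hS
      rw [Finset.mem_filter] at hS
      refine ⟨hS.1.2, ?_⟩
      rw [← Finset.coe_inter, hS.2]
  have h2 : {T : Set (Sym2 ℕ) | IsSpan r (E : Set (Sym2 ℕ)) T} =
      (fun S : Finset (Sym2 ℕ) => (S : Set (Sym2 ℕ))) ''
        ((trees r E : Finset (Finset (Sym2 ℕ))) : Set (Finset (Sym2 ℕ))) := by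
    ext T
    rw [Set.mem_image]
    constructor
    · intro h1
      have hfin : T.Finite := E.finite_toSet.subset h1.1
      refine ⟨hfin.toFinset, ?_, hfin.coe_toFinset⟩
      unfold trees
      rw [Finset.mem_coe, Finset.mem_filter, Finset.mem_powerset]
      refine ⟨?_, ?_⟩
      · rw [← Finset.coe_subset, hfin.coe_toFinset]
        exact h1.1
      · rw [hfin.coe_toFinset]
        exact h1
    · rintro ⟨S, hS, rfl⟩
      rw [Finset.mem_coe] at hS
      unfold trees at hS
      rw [Finset.mem_filter] at hS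
      exact hS.2
  rw [h1, h2, Set.ncard_image_of_injective _ Finset.coe_injective,
    Set.ncard_image_of_injective _ Finset.coe_injective, Set.ncard_coe_finset,
    Set.ncard_coe_finset]

section

variable {G : SimpleGraph ℕ} {x0 : ℕ} {P : ℕ → ℕ → Finset ℕ}

theorem cell_mono (hP : Tower G (comp G x0) P) {x : ℕ} (hx : x ∈ comp G x0) :
    Monotone fun k => P k x := monotone_nat_of_le_succ fun k => hP.mono k x hx

theorem cell_union (hP : Tower G (comp G x0) P) : (⋃ k, (P k x0 : Set ℕ)) = comp G x0 := by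
  apply Set.Subset.antisymm
  · exact Set.iUnion_subset fun k => hP.sub k x0 (self_comp G x0)
  · intro y hy
    obtain ⟨p⟩ := hy
    have key : ∀ {a b : ℕ} (_ : G.Walk a b), a ∈ comp G x0 → (∃ k, a ∈ P k x0) →
        ∃ k, b ∈ P k x0 := by
      intro a b p
      induction p with
      | nil => exact fun _ h => h
      | cons hab p ih =>
        intro ha ⟨k, hk⟩
        apply ih (comp_adj ha hab)
        obtain ⟨k', hk'⟩ := hP.exh _ ha _ (comp_adj ha hab) hab
        refine ⟨max k k', ?_⟩
        have h1 := cell_mono hP (self_comp G x0) (le_max_left k k') hk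
        have h2 := cell_mono hP ha (le_max_right k k') hk'
        rwa [← hP.eq _ x0 (self_comp G x0) _ h1]
    obtain ⟨k, hk⟩ := key p (self_comp G x0) ⟨0, hP.self 0 x0 (self_comp G x0)⟩
    exact Set.mem_iUnion.2 ⟨k, hk⟩

theorem mem_Ph {F : Rule} (hF : KerSpec F) (hG : LocFin G x0) (hP : Tower G (comp G x0) P)
    (o : ℕ → I) (u : ℕ → ℕ → I) {e : Sym2 ℕ} (he : ∀ v ∈ e, v ∈ comp G x0) :
    e ∈ Ph F G P o u ↔ ∃ k, e ∈ X F G P o u k x0 := by
  have h0 := self_comp G x0
  constructor
  · rintro ⟨k, x, hx, hk⟩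
    have hxK := he x hx
    have hxU : x ∈ ⋃ k, (P k x0 : Set ℕ) := by rw [cell_union hP]; exact hxK
    obtain ⟨k', hk'⟩ := Set.mem_iUnion.1 hxU
    refine ⟨max k k', ?_⟩
    have h1 : Monotone fun k => X F G P o u k x :=
      monotone_nat_of_le_succ fun k => X_mono hF hG hP o u k hxK
    have h2 := h1 (le_max_left k k') hk
    have h3 : x ∈ P (max k k') x0 := cell_mono hP h0 (le_max_right k k') hk'
    rw [← X_const F hP o u _ h0 h3]
    exact h2
  · rintro ⟨k, hk⟩
    induction e using Sym2.ind with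
    | _ a b =>
      refine ⟨k, a, by simp, ?_⟩
      have h1 := (mem_inn.1 (X_sub_inn F G P o u k x0 hk)).2 a (by simp)
      rw [X_const F hP o u k h0 h1]
      exact hk

theorem exists_level (hP : Tower G (comp G x0) P) (s : Finset ℕ) (hs : (s : Set ℕ) ⊆ comp G x0) :
    ∃ K, ∀ k ≥ K, s ⊆ P k x0 := by
  classical
  induction s using Finset.induction_on with
  | empty => exact ⟨0, fun _ _ => Finset.empty_subset _⟩
  | insert a s ha ih =>
    obtain ⟨K, hK⟩ := ih fun v hv => hs (by simp [Finset.mem_coe.1 hv])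
    have haU : a ∈ ⋃ k, (P k x0 : Set ℕ) := by
      rw [cell_union hP]; exact hs (by simp)
    obtain ⟨k', hk'⟩ := Set.mem_iUnion.1 haU
    refine ⟨max K k', fun k hk => ?_⟩
    rw [Finset.insert_subset_iff]
    exact ⟨cell_mono hP (self_comp G x0) ((le_max_right K k').trans hk) hk',
      hK k ((le_max_left K k').trans hk)⟩

end

theorem t_PHI (hL : S_LAW) : S_PHI := by
  classical
  intro F hF G x0 hG P hP o ho
  have h0 := self_comp G x0
  refine ⟨cell_mono hP h0, cell_union hP, fun F' A hF' => ?_⟩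
  -- the level from which on the edges are inner edges
  have hvs : ((F'.biUnion Sym2.toFinset : Finset ℕ) : Set ℕ) ⊆ comp G x0 := by
    intro v hv
    rw [Finset.mem_coe, Finset.mem_biUnion] at hv
    obtain ⟨e, he, hv⟩ := hv
    exact (hF' e he).2 v (Sym2.mem_toFinset.1 hv)
  obtain ⟨K, hK⟩ := exists_level hP _ hvs
  have hinn : ∀ k ≥ K, F' ⊆ inn (te G (P k x0)) (P k x0) := by
    intro k hk e he
    have hfin := touch_finite hG (hP.sub k x0 h0)
    have h1 : ∀ v ∈ e, v ∈ P k x0 := fun v hv =>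
      hK k hk (Finset.mem_biUnion.2 ⟨e, he, Sym2.mem_toFinset.2 hv⟩)
    rw [mem_inn, mem_te hfin]
    refine ⟨⟨(hF' e he).1, ?_⟩, h1⟩
    induction e using Sym2.ind with
    | _ a b => exact ⟨a, h1 a (by simp), by simp⟩
  have hL' := fun k => hL F hF G x0 hG P hP o ho k x0 h0
  have hmono : ∀ u, Monotone fun k => X F G P o u k x0 := fun u =>
    monotone_nat_of_le_succ fun k => (hL' k).2.2.1 u
  -- the events at level `k`
  have hset : ∀ k, {u | X F G P o u k x0 ∩ F' = A} =
      ⋃ S ∈ (inn (te G (P k x0)) (P k x0)).powerset.filter (fun S => S ∩ F' = A),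
        {u | X F G P o u k x0 = S} := by
    intro k
    ext u
    simp only [Set.mem_iUnion, Set.mem_ofPred_eq, Finset.mem_filter, Finset.mem_powerset]
    constructor
    · intro h
      exact ⟨_, ⟨(hL' k).2.2.2 u, h⟩, rfl⟩
    · rintro ⟨S, ⟨_, h⟩, h2⟩
      rw [h2]
      exact h
  have hmeas : ∀ k, MeasurableSet {u | X F G P o u k x0 ∩ F' = A} := by
    intro k
    rw [hset k]
    exact Finset.measurableSet_biUnion _ fun S _ => (hL' k).1 S
  have hconv : Tendsto (fun k => (lab2 {u | X F G P o u k x0 ∩ F' = A}).toReal) atTop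
      (𝓝 (lab2 {u | Ph F G P o u ∩ (F' : Set (Sym2 ℕ)) = (A : Set (Sym2 ℕ))}).toReal) := by
    refine (ENNReal.tendsto_toReal (measure_ne_top _ _)).comp ?_
    refine tendsto_measure_of_tendsto_indicator_of_isFiniteMeasure atTop lab2 hmeas ?_
    intro u
    -- for large `k`, the intersections with `F'` agree
    have hk : ∃ K', ∀ k ≥ K', ∀ e ∈ F', (e ∈ Ph F G P o u ↔ e ∈ X F G P o u k x0) := by
      have h1 : ∀ e ∈ F', ∃ K', ∀ k ≥ K', (e ∈ Ph F G P o u ↔ e ∈ X F G P o u k x0) := by
        intro e he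
        by_cases h : e ∈ Ph F G P o u
        · obtain ⟨k', hk'⟩ := (mem_Ph hF hG hP o u (hF' e he).2).1 h
          exact ⟨k', fun k hk => ⟨fun _ => hmono u hk hk', fun _ => h⟩⟩
        · refine ⟨0, fun k _ => ⟨fun h1 => absurd h1 h, fun h1 => ?_⟩⟩
          exact (mem_Ph hF hG hP o u (hF' e he).2).2 ⟨k, h1⟩
      choose! Kf hKf using h1
      refine ⟨F'.sup Kf, fun k hk e he => hKf e he k ((Finset.le_sup he).trans hk)⟩
    obtain ⟨K', hK'⟩ := hk
    filter_upwards [eventually_ge_atTop K'] with k hk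
    have h1 : ((X F G P o u k x0 ∩ F' : Finset (Sym2 ℕ)) : Set (Sym2 ℕ)) =
        Ph F G P o u ∩ (F' : Set (Sym2 ℕ)) := by
      ext e
      rw [Finset.coe_inter]
      simp only [Set.mem_inter_iff, Finset.mem_coe]
      constructor
      · rintro ⟨h1, h2⟩
        exact ⟨(hK' k hk e h2).2 h1, h2⟩
      · rintro ⟨h1, h2⟩
        exact ⟨(hK' k hk e h2).1 h1, h2⟩
    show X F G P o u k x0 ∩ F' = A ↔ Ph F G P o u ∩ (F' : Set (Sym2 ℕ)) = (A : Set (Sym2 ℕ))
    rw [← h1, Finset.coe_inj]
  refine hconv.congr' ?_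
  filter_upwards [eventually_ge_atTop K] with k hk
  have hfin := touch_finite hG (hP.sub k x0 h0)
  rw [hset k, measure_biUnion_finset ?_ fun S _ => (hL' k).1 S,
    ENNReal.toReal_sum fun S _ => measure_ne_top _ _]
  · have h1 : ∑ S ∈ (inn (te G (P k x0)) (P k x0)).powerset.filter (fun S => S ∩ F' = A),
        (lab2 {u | X F G P o u k x0 = S}).toReal =
        ∑ S ∈ (inn (te G (P k x0)) (P k x0)).powerset,
          mu (te G (P k x0)) (P k x0) S * (if S ∩ F' = A then 1 else 0) := by
      rw [Finset.sum_filter]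
      refine Finset.sum_congr rfl fun S _ => ?_
      split_ifs
      · rw [(hL' k).2.1 S, mul_one]
      · rw [mul_zero]
    rw [h1, sum_mu, ← coe_te hfin, t_USTP, tch_te hfin (Finset.Subset.refl _)]
    unfold av
    congr 1
    rw [Finset.sum_boole]
    congr 2
    ext T
    rw [Finset.mem_filter, Finset.mem_filter, Finset.inter_assoc,
      Finset.inter_eq_right.2 (hinn k hk)]
  · intro S _ S₂ _ hne
    rw [Function.onFun, Set.disjoint_left]
    intro u h1 h2
    exact hne (Eq.trans (Eq.symm h1) h2)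

end Pool.Agent.J4H89.WU
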