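import Mathlib
import Pool.Agent.J4H89.WU.Phi

/-!
# Existence of the wired limit
-/

namespace Pool.Agent.J4H89.WU

open MeasureTheory Filter Topology
open Pool.Agent.TH968.UST Pool.Agent.TH830.UST Pool.Agent.TH830.J74
open scoped ENNReal unitInterval

/-- edges with both endpoints outside `B` are loops of the graph wired outside `B` -/
theorem trees_wired {B : Finset ℕ} {E E' : Finset (Sym2 ℕ)} (hE : E ⊆ E')
    (h : ∀ e ∈ E', e ∉ E → ∀ v ∈ e, v ∉ B) : trees (wired B) E' = trees (wired B) E := by
  ext T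
  rw [mem_trees, mem_trees]
  constructor
  · rintro ⟨h1, h2, h3⟩
    refine ⟨?_, fun a b hab => h2 a b (hE hab), h3⟩
    intro e he
    by_contra hne
    induction e using Sym2.ind with
    | _ a b =>
      have h4 := h _ (h1 he) hne
      exact h3 a b (by simpa using he) (crel (Or.inr ⟨h4 a (by simp), h4 b (by simp)⟩))
  · rintro ⟨h1, h2, h3⟩
    refine ⟨h1.trans hE, fun a b hab => ?_, h3⟩
    by_cases hab' : s(a, b) ∈ E
    · exact h2 a b hab'
    · have h4 := h _ hab hab'
      exact crel (Or.inr ⟨h4 a (by simp), h4 b (by simp)⟩)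

open Classical in
/-- the probability that the wired tree of `B` contains `A` -/
noncomputable def pA (G : SimpleGraph ℕ) (A : Finset (Sym2 ℕ)) (B : Finset ℕ) : ℝ :=
  av (wired B) (te G B) (fun T => if A ⊆ T then 1 else 0)

theorem pA_mono {G : SimpleGraph ℕ} {B B' : Finset ℕ} (hB' : (touch G B').Finite) (h : B ⊆ B')
    (A : Finset (Sym2 ℕ)) : pA G A B ≤ pA G A B' := by
  classical
  have hB := touch_finite_mono hB' h
  have h1 : trees (wired B) (te G B') = trees (wired B) (te G B) := by
    refine trees_wired (te_mono hB' h) ?_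
    intro e he hne v hv hvB
    apply hne
    rw [mem_te hB]
    exact ⟨(te_sub he).1, v, hvB, hv⟩
  have h2 := dom_av' (wired B) (wired B') (wired_anti h) (te G B') (te G B')
    (Finset.Subset.refl _) (fun T => if A ⊆ T then 1 else 0) (by
      intro S T hST
      split_ifs with h3 h4
      · exact le_rfl
      · exact absurd (h3.trans hST) h4
      · exact zero_le_one
      · exact le_rfl)
  have h3 : av (wired B) (te G B') (fun T => if A ⊆ T ∩ te G B' then (1 : ℝ) else 0) =
      pA G A B := by
    unfold pA av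
    rw [h1]
    congr 1
    refine Finset.sum_congr rfl fun T hT => ?_
    have h4 : T ⊆ te G B' := (mem_trees.1 hT).1.trans (te_mono hB' h)
    show (if A ⊆ T ∩ te G B' then (1 : ℝ) else 0) = if A ⊆ T then 1 else 0
    rw [Finset.inter_eq_left.2 h4]
  rw [h3] at h2
  exact h2

theorem pA_le_one (G : SimpleGraph ℕ) (A : Finset (Sym2 ℕ)) (B : Finset ℕ) : pA G A B ≤ 1 := by
  classical
  unfold pA
  refine (av_mono _ _ _ (fun _ => 1) fun T => ?_).trans (av_const _ _ _).le
  split_ifs
  · exact le_rfl
  · exact zero_le_one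

/-- inclusion-exclusion -/
theorem incl_excl (F A T : Finset (Sym2 ℕ)) (hA : A ⊆ F) :
    (if T ∩ F = A then (1 : ℝ) else 0) =
      ∑ D ∈ (F \ A).powerset, (-1 : ℝ) ^ D.card * (if A ∪ D ⊆ T then 1 else 0) := by
  classical
  by_cases hAT : A ⊆ T
  · have h1 : ∀ D ∈ (F \ A).powerset, (-1 : ℝ) ^ D.card * (if A ∪ D ⊆ T then 1 else 0) =
        if D ⊆ T then (-1 : ℝ) ^ D.card else 0 := by
      intro D _
      by_cases hD : D ⊆ T
      · rw [if_pos (Finset.union_subset hAT hD), if_pos hD, mul_one]
      · rw [if_neg (fun h => hD (Finset.subset_union_right.trans h)), if_neg hD, mul_zero]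
    rw [Finset.sum_congr rfl h1, ← Finset.sum_filter]
    have h2 : (F \ A).powerset.filter (fun D => D ⊆ T) = ((F \ A) ∩ T).powerset := by
      ext D
      rw [Finset.mem_filter, Finset.mem_powerset, Finset.mem_powerset, Finset.subset_inter_iff]
    rw [h2]
    have h3 := Finset.sum_powerset_neg_one_pow_card (x := (F \ A) ∩ T)
    have h4 : (∑ D ∈ ((F \ A) ∩ T).powerset, (-1 : ℝ) ^ D.card) =
        ((∑ D ∈ ((F \ A) ∩ T).powerset, (-1 : ℤ) ^ D.card : ℤ) : ℝ) := by
      push_cast
      rfl
    rw [h4, h3]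
    by_cases h5 : (F \ A) ∩ T = ∅
    · rw [if_pos h5, if_pos]
      · simp
      · ext e
        rw [Finset.mem_inter]
        constructor
        · rintro ⟨h6, h7⟩
          by_contra h8
          have : e ∈ (F \ A) ∩ T :=
            Finset.mem_inter.2 ⟨Finset.mem_sdiff.2 ⟨h7, h8⟩, h6⟩
          rw [h5] at this
          exact absurd this (Finset.notMem_empty _)
        · intro h6
          exact ⟨hAT h6, hA h6⟩
    · rw [if_neg h5, if_neg]
      · simp
      · intro h6
        apply h5
        rw [Finset.eq_empty_iff_forall_notMem]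
        intro e he
        rw [Finset.mem_inter, Finset.mem_sdiff] at he
        apply he.1.2
        rw [← h6]
        exact Finset.mem_inter.2 ⟨he.2, he.1.1⟩
  · rw [if_neg (fun h : T ∩ F = A => hAT (h ▸ Finset.inter_subset_left))]
    symm
    refine Finset.sum_eq_zero fun D _ => ?_
    rw [if_neg (fun h => hAT (Finset.subset_union_left.trans h)), mul_zero]

theorem ust_pA {G : SimpleGraph ℕ} {B : Finset ℕ} (hB : (touch G B).Finite)
    (F A : Finset (Sym2 ℕ)) (hA : A ⊆ F) :
    ustProb (wired B) (touch G B) (F : Set (Sym2 ℕ)) (A : Set (Sym2 ℕ)) =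
      ∑ D ∈ (F \ A).powerset, (-1 : ℝ) ^ D.card * pA G (A ∪ D) B := by
  classical
  rw [← coe_te hB, t_USTP]
  have h1 : (((trees (wired B) (te G B)).filter fun T => T ∩ F = A).card : ℝ) /
      ((trees (wired B) (te G B)).card : ℝ) =
      av (wired B) (te G B) (fun T => if T ∩ F = A then 1 else 0) := by
    unfold av
    rw [Finset.sum_boole]
  rw [h1, av_congr (k := fun T => ∑ D ∈ (F \ A).powerset, (-1 : ℝ) ^ D.card *
    (if A ∪ D ⊆ T then 1 else 0)) _ _ (fun T _ => incl_excl F A T hA), ← av_sum]
  rfl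

theorem t_LIM : S_LIM := by
  classical
  intro G x hG
  -- all finite subsets of the component
  let S : Finset (Sym2 ℕ) → Set ℝ := fun A => {p | ∃ B : Finset ℕ, (B : Set ℕ) ⊆ comp G x ∧
    p = pA G A B}
  have hSb : ∀ A, BddAbove (S A) := by
    intro A
    refine ⟨1, ?_⟩
    rintro p ⟨B, _, rfl⟩
    exact pA_le_one G A B
  have hSn : ∀ A, (S A).Nonempty := fun A => ⟨_, ∅, by simp, rfl⟩
  have key : ∀ V : ℕ → Finset ℕ, Monotone V → (⋃ n, (V n : Set ℕ)) = comp G x →
      ∀ A, Tendsto (fun n => pA G A (V n)) atTop (𝓝 (sSup (S A))) := by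
    intro V hV hVu A
    have hsub : ∀ n, (V n : Set ℕ) ⊆ comp G x := by
      intro n
      rw [← hVu]
      exact Set.subset_iUnion (fun n => (V n : Set ℕ)) n
    have hm : Monotone fun n => pA G A (V n) := fun i j hij =>
      pA_mono (touch_finite hG (hsub j)) (hV hij) A
    have hbd : BddAbove (Set.range fun n => pA G A (V n)) := by
      refine ⟨1, ?_⟩
      rintro _ ⟨n, rfl⟩
      exact pA_le_one G A _
    have h1 := tendsto_atTop_ciSup hm hbd
    have h2 : ⨆ n, pA G A (V n) = sSup (S A) := by
      apply le_antisymm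
      · exact ciSup_le fun n => le_csSup (hSb A) ⟨V n, hsub n, rfl⟩
      · refine csSup_le (hSn A) ?_
        rintro p ⟨B, hB, rfl⟩
        have h3 : ∃ n, B ⊆ V n := by
          have h4 : ∀ B : Finset ℕ, (B : Set ℕ) ⊆ comp G x → ∃ n, B ⊆ V n := by
            intro B
            induction B using Finset.induction_on with
            | empty => exact fun _ => ⟨0, Finset.empty_subset _⟩
            | insert a B _ ih =>
              intro hB
              obtain ⟨n, hn⟩ := ih fun v hv => hB (by simp [Finset.mem_coe.1 hv])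
              have ha : a ∈ ⋃ n, (V n : Set ℕ) := by
                rw [hVu]; exact hB (by simp)
              obtain ⟨m, hm⟩ := Set.mem_iUnion.1 ha
              refine ⟨max n m, ?_⟩
              rw [Finset.insert_subset_iff]
              exact ⟨hV (le_max_right n m) hm, hn.trans (hV (le_max_left n m))⟩
          exact h4 B hB
        obtain ⟨n, hn⟩ := h3
        exact (pA_mono (touch_finite hG (hsub n)) hn A).trans (le_ciSup hbd n)
    rw [← h2]
    exact h1
  refine ⟨fun F A => if A ⊆ F then ∑ D ∈ (F \ A).powerset, (-1 : ℝ) ^ D.card * sSup (S (A ∪ D))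
    else 0, fun V hV hVu F A hF => ?_⟩
  have hsub : ∀ n, (V n : Set ℕ) ⊆ comp G x := by
    intro n
    rw [← hVu]
    exact Set.subset_iUnion (fun n => (V n : Set ℕ)) n
  show Tendsto _ atTop (𝓝 (if A ⊆ F then ∑ D ∈ (F \ A).powerset,
    (-1 : ℝ) ^ D.card * sSup (S (A ∪ D)) else 0))
  by_cases hA : A ⊆ F
  · rw [if_pos hA]
    have h1 : (fun n => ustProb (wired (V n)) (touch G (V n)) (F : Set (Sym2 ℕ))
        (A : Set (Sym2 ℕ))) = fun n =>
        ∑ D ∈ (F \ A).powerset, (-1 : ℝ) ^ D.card * pA G (A ∪ D) (V n) := by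
      funext n
      exact ust_pA (touch_finite hG (hsub n)) F A hA
    rw [h1]
    exact tendsto_finsetSum _ fun D _ => (key V hV hVu (A ∪ D)).const_mul _
  · rw [if_neg hA]
    have h1 : (fun n => ustProb (wired (V n)) (touch G (V n)) (F : Set (Sym2 ℕ))
        (A : Set (Sym2 ℕ))) = fun _ => 0 := by
      funext n
      rw [← coe_te (touch_finite hG (hsub n)), t_USTP]
      have h2 : ((trees (wired (V n)) (te G (V n))).filter fun T => T ∩ F = A) = ∅ := by
        rw [Finset.filter_eq_empty_iff]
        intro T _ hT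
        exact hA (hT ▸ Finset.inter_subset_right)
      rw [h2]
      simp
    rw [h1]
    exact tendsto_const_nhds

end Pool.Agent.J4H89.WU
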