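import Mathlib
import Pool.Agent.J4H89.WU.Bas

/-!
# Measurability of the construction
-/

namespace Pool.Agent.J4H89.WU

open MeasureTheory Filter Topology
open Pool.Agent.TH968.UST
open scoped ENNReal unitInterval

/-- measurable functions with values in a countable discrete space -/
def DM {Z A : Type*} [MeasurableSpace Z] (f : Z → A) : Prop := ∀ a, MeasurableSet {z | f z = a}

section

variable {Z A B A' : Type*} [MeasurableSpace Z]

theorem DM.const (a : A) : DM (fun _ : Z => a) := by
  intro b
  by_cases h : a = b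
  · simp [h]
  · simp [h]

theorem DM.bind [Countable A] {f : Z → A} {g : A → Z → B} (hf : DM f) (hg : ∀ a, DM (g a)) :
    DM (fun z => g (f z) z) := by
  intro b
  have : {z | g (f z) z = b} = ⋃ a, ({z | f z = a} ∩ {z | g a z = b}) := by
    ext z
    simp only [Set.mem_iUnion, Set.mem_inter_iff, Set.mem_ofPred_eq]
    constructor
    · intro h
      exact ⟨f z, rfl, h⟩
    · rintro ⟨a, rfl, h⟩
      exact h
  rw [this]
  exact MeasurableSet.iUnion fun a => (hf a).inter (hg a b)

theorem DM.map [Countable A] {f : Z → A} (hf : DM f) (g : A → B) : DM (fun z => g (f z)) :=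
  DM.bind (g := fun a _ => g a) hf fun a => DM.const (g a)

theorem DM.map2 [Countable A] [Countable A'] {f : Z → A} {f' : Z → A'} (hf : DM f)
    (hf' : DM f') (g : A → A' → B) : DM (fun z => g (f z) (f' z)) :=
  DM.bind (g := fun a z => g a (f' z)) hf fun a => DM.map hf' (g a)

theorem DM.rel [Countable A] [Countable A'] {f : Z → A} {f' : Z → A'} (hf : DM f)
    (hf' : DM f') (R : A → A' → Prop) : MeasurableSet {z | R (f z) (f' z)} := by
  have h := DM.map2 hf hf' R True
  simpa using h

theorem DM.mem [Countable A] {f : Z → A} (hf : DM f) (T : Set A) :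
    MeasurableSet {z | f z ∈ T} := by
  have h := DM.map hf (fun a => a ∈ T) True
  simpa using h

theorem DM.image {ι : Type*} [DecidableEq A] [Countable A] (C : Finset ι) {f : ι → Z → A}
    (hf : ∀ i ∈ C, DM (f i)) : DM (fun z => C.image (fun i => f i z)) := by
  classical
  induction C using Finset.induction_on with
  | empty => simpa using DM.const (Z := Z) (∅ : Finset A)
  | insert a C ha ih =>
    have h1 := DM.map2 (hf a (Finset.mem_insert_self _ _))
      (ih fun i hi => hf i (Finset.mem_insert_of_mem hi)) (fun a s => insert a s)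
    simpa using h1

theorem DM.biUnion {ι : Type*} [DecidableEq A] [Countable A] (C : Finset ι)
    {f : ι → Z → Finset A} (hf : ∀ i ∈ C, DM (f i)) :
    DM (fun z => C.biUnion (fun i => f i z)) := by
  classical
  induction C using Finset.induction_on with
  | empty => simpa using DM.const (Z := Z) (∅ : Finset A)
  | insert a C ha ih =>
    have h1 := DM.map2 (hf a (Finset.mem_insert_self _ _))
      (ih fun i hi => hf i (Finset.mem_insert_of_mem hi)) (fun a s => a ∪ s)
    simpa using h1

theorem DM.filter {ι : Type*} (C : Finset ι) (p : ι → Z → Prop)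
    (inst : ∀ z, DecidablePred fun i => p i z)
    (hp : ∀ i ∈ C, MeasurableSet {z | p i z}) :
    DM (fun z => @Finset.filter ι (fun i => p i z) (inst z) C) := by
  intro S
  by_cases hS : S ⊆ C
  · have : {z | @Finset.filter ι (fun i => p i z) (inst z) C = S} = ⋂ i ∈ C, {z | p i z ↔ i ∈ S} := by
      ext z
      simp only [Set.mem_iInter, Set.mem_ofPred_eq]
      constructor
      · intro h i hi
        rw [← h, Finset.mem_filter]
        exact ⟨fun h1 => ⟨hi, h1⟩, fun h1 => h1.2⟩
      · intro h
        ext i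
        rw [Finset.mem_filter]
        constructor
        · rintro ⟨h1, h2⟩
          exact (h i h1).1 h2
        · intro h1
          exact ⟨hS h1, (h i (hS h1)).2 h1⟩
    rw [this]
    refine Finset.measurableSet_biInter _ fun i hi => ?_
    by_cases h : i ∈ S
    · simpa [h] using hp i hi
    · have h2 := (hp i hi).compl
      convert h2 using 1
      ext z
      simp [h]
  · have : {z | @Finset.filter ι (fun i => p i z) (inst z) C = S} = ∅ := by
      ext z
      simp only [Set.mem_ofPred_eq, Set.mem_empty_iff_false, iff_false]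
      intro h
      exact hS (h ▸ Finset.filter_subset _ _)
    rw [this]
    exact MeasurableSet.empty

end

section

variable {Z : Type*} [MeasurableSpace Z]

theorem dm_rk {o : Z → ℕ → I} (ho : Measurable o) (A : Finset ℕ) (v : ℕ) :
    DM (fun z => rk (o z) A v) := by
  classical
  unfold rk
  refine DM.map (DM.filter A (fun w z => o z w < o z v) _ fun w _ => ?_) Finset.card
  exact measurableSet_lt (measurable_pi_iff.1 ho w) (measurable_pi_iff.1 ho v)

theorem dm_map {o : Z → ℕ → I} (ho : Measurable o) (A : Finset ℕ) (e : Sym2 ℕ) :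
    DM (fun z => Sym2.map (rk (o z) A) e) := by
  induction e using Sym2.ind with
  | _ a b =>
    simp only [Sym2.map_mk]
    exact DM.map2 (dm_rk ho A a) (dm_rk ho A b) (fun x y => s(x, y))

theorem dm_touch {G : Z → SimpleGraph ℕ} (hG : Measurable G) (C : Finset ℕ)
    (E : Finset (Sym2 ℕ)) : MeasurableSet {z | touch (G z) C = (E : Set (Sym2 ℕ))} := by
  have : {z | touch (G z) C = (E : Set (Sym2 ℕ))} =
      ⋂ e : Sym2 ℕ, {z | (e ∈ (G z).edgeSet ∧ ∃ v ∈ C, v ∈ e) ↔ e ∈ E} := by
    ext z
    simp only [Set.mem_iInter, Set.mem_ofPred_eq, Set.ext_iff]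
    rfl
  rw [this]
  refine MeasurableSet.iInter fun e => ?_
  have he : MeasurableSet {z | e ∈ (G z).edgeSet} := by
    have h1 : Measurable fun z => (G z).edgeSet := SimpleGraph.measurable_edgeSet.comp hG
    exact measurableSet_setOfPred.2 ((measurable_set_mem e).comp h1)
  by_cases h1 : ∃ v ∈ C, v ∈ e
  · by_cases h2 : e ∈ E
    · have : {z | (e ∈ (G z).edgeSet ∧ ∃ v ∈ C, v ∈ e) ↔ e ∈ E} = {z | e ∈ (G z).edgeSet} := by
        ext z; simp only [Set.mem_ofPred_eq, h1, h2, and_true, iff_true]
      rw [this]; exact he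
    · have : {z | (e ∈ (G z).edgeSet ∧ ∃ v ∈ C, v ∈ e) ↔ e ∈ E} = {z | e ∈ (G z).edgeSet}ᶜ := by
        ext z
        simp only [Set.mem_ofPred_eq, h1, h2, and_true, iff_false, Set.mem_compl_iff]
      rw [this]; exact he.compl
  · by_cases h2 : e ∈ E
    · simp only [h1, h2, and_false, false_iff, not_true_eq_false]
      simp
    · simp only [h1, h2, and_false]
      simp

theorem dm_te {G : Z → SimpleGraph ℕ} (hG : Measurable G) (C : Finset ℕ) :
    DM (fun z => te (G z) C) := by
  classical
  intro E
  have hfin : MeasurableSet {z | (touch (G z) C).Finite} := by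
    have : {z | (touch (G z) C).Finite} =
        ⋃ E : Finset (Sym2 ℕ), {z | touch (G z) C = (E : Set (Sym2 ℕ))} := by
      ext z
      simp only [Set.mem_iUnion, Set.mem_ofPred_eq]
      constructor
      · intro h
        exact ⟨h.toFinset, h.coe_toFinset.symm⟩
      · rintro ⟨E, h⟩
        rw [h]
        exact E.finite_toSet
    rw [this]
    exact MeasurableSet.iUnion fun E => dm_touch hG C E
  have : {z | te (G z) C = E} = {z | touch (G z) C = (E : Set (Sym2 ℕ))} ∪
      ({z | (touch (G z) C).Finite}ᶜ ∩ {_z | (∅ : Finset (Sym2 ℕ)) = E}) := by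
    ext z
    simp only [Set.mem_union, Set.mem_inter_iff, Set.mem_compl_iff, Set.mem_ofPred_eq]
    by_cases h : (touch (G z) C).Finite
    · constructor
      · intro h1
        left
        rw [← coe_te h, h1]
      · rintro (h1 | ⟨h1, _⟩)
        · rw [← coe_te h, Finset.coe_inj] at h1
          exact h1
        · exact absurd h h1
    · unfold te
      rw [dif_neg h]
      constructor
      · intro h1
        exact Or.inr ⟨h, h1⟩
      · rintro (h1 | ⟨_, h1⟩)
        · exact absurd (h1 ▸ E.finite_toSet) h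
        · exact h1
  rw [this]
  refine (dm_touch hG C E).union (hfin.compl.inter ?_)
  by_cases h : (∅ : Finset (Sym2 ℕ)) = E
  · simp [h]
  · simp [h]

theorem meas_sup {u : Z → ℕ → ℕ → I} (hu : Measurable u) (D : Finset ℕ) (k : ℕ) :
    Measurable fun z => D.sup fun v => u z v k := by
  classical
  induction D using Finset.induction_on with
  | empty =>
    simp only [Finset.sup_empty]
    exact measurable_const
  | insert a D _ ih =>
    simp only [Finset.sup_insert]
    have h1 : Measurable fun z => u z a k :=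
      measurable_pi_iff.1 (measurable_pi_iff.1 hu a) k
    exact h1.max ih

theorem meas_sel {o : Z → ℕ → I} (ho : Measurable o) {u : Z → ℕ → ℕ → I} (hu : Measurable u)
    (C : Finset ℕ) (k : ℕ) : Measurable fun z => sel (o z) (u z) C k := by
  classical
  intro T hT
  have hD : DM (fun z => C.filter fun v => ∀ w ∈ C, o z v ≤ o z w) := by
    refine DM.filter C (fun v z => ∀ w ∈ C, o z v ≤ o z w) _ fun v _ => ?_
    have h0 : {z | ∀ w ∈ C, o z v ≤ o z w} = ⋂ w ∈ C, {z | o z v ≤ o z w} := by
      ext z; simp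
    rw [h0]
    exact Finset.measurableSet_biInter _ fun w _ =>
      measurableSet_le (measurable_pi_iff.1 ho v) (measurable_pi_iff.1 ho w)
  have : (fun z => sel (o z) (u z) C k) ⁻¹' T = ⋃ D : Finset ℕ,
      ({z | (C.filter fun v => ∀ w ∈ C, o z v ≤ o z w) = D} ∩
        (fun z => D.sup fun v => u z v k) ⁻¹' T) := by
    ext z
    simp only [Set.mem_iUnion, Set.mem_inter_iff, Set.mem_preimage, Set.mem_ofPred_eq]
    constructor
    · intro h
      exact ⟨_, rfl, h⟩
    · rintro ⟨D, rfl, h⟩
      exact h
  rw [this]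
  exact MeasurableSet.iUnion fun D => (hD D).inter (meas_sup hu D k hT)

theorem dm_F {F : Rule} (hF : KerSpec F) {o : Z → ℕ → I} (ho : Measurable o) {w : Z → I}
    (hw : Measurable w) (A : Finset ℕ) (E : Finset (Sym2 ℕ)) (C : Finset ℕ)
    (Q : Finset (Finset ℕ)) (S : Finset (Sym2 ℕ)) :
    DM (fun z => F (E.image (Sym2.map (rk (o z) A)))
      (C.image (rk (o z) A)) (Q.image fun B => B.image (rk (o z) A))
        (S.image (Sym2.map (rk (o z) A))) (w z)) := by
  have h1 : DM (fun z => E.image (Sym2.map (rk (o z) A))) := DM.image E fun e _ => dm_map ho _ e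
  have h2 : DM (fun z => C.image (rk (o z) A)) := DM.image C fun v _ => dm_rk ho _ v
  have h3 : DM (fun z => Q.image fun B => B.image (rk (o z) A)) :=
    DM.image Q fun B _ => DM.image B fun v _ => dm_rk ho _ v
  have h4 : DM (fun z => S.image (Sym2.map (rk (o z) A))) := DM.image S fun e _ => dm_map ho _ e
  have h5 : ∀ E' C' Q' S', DM (fun z => F E' C' Q' S' (w z)) :=
    fun E' C' Q' S' T => hw (hF.meas E' C' Q' S' T)
  have h6 : ∀ E' C' Q', DM (fun z => F E' C' Q' (S.image (Sym2.map (rk (o z) A))) (w z)) :=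
    fun E' C' Q' => DM.bind (g := fun S' z => F E' C' Q' S' (w z)) h4 (h5 E' C' Q')
  have h7 : ∀ E' C', DM (fun z => F E' C' (Q.image fun B => B.image (rk (o z) A))
      (S.image (Sym2.map (rk (o z) A))) (w z)) :=
    fun E' C' => DM.bind (g := fun Q' z => F E' C' Q' (S.image (Sym2.map (rk (o z) A))) (w z))
      h3 (h6 E' C')
  have h8 : ∀ E', DM (fun z => F E' (C.image (rk (o z) A))
      (Q.image fun B => B.image (rk (o z) A)) (S.image (Sym2.map (rk (o z) A))) (w z)) :=
    fun E' => DM.bind (g := fun C' z => F E' C' (Q.image fun B => B.image (rk (o z) A))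
      (S.image (Sym2.map (rk (o z) A))) (w z)) h2 (h7 E')
  exact DM.bind (g := fun E' z => F E' (C.image (rk (o z) A))
      (Q.image fun B => B.image (rk (o z) A)) (S.image (Sym2.map (rk (o z) A))) (w z)) h1 h8

theorem upd_iff {F : Rule} {E : Finset (Sym2 ℕ)} {C : Finset ℕ} {Q : Finset (Finset ℕ)}
    {S : Finset (Sym2 ℕ)} {o : ℕ → I} {w : I} {T : Finset (Sym2 ℕ)} (hT : T ⊆ inn E C) :
    upd F E C Q S o w = T ↔ ∀ e ∈ inn E C, ((Sym2.map (rk o (hull E C)) e ∈
      F (E.image (Sym2.map (rk o (hull E C)))) (C.image (rk o (hull E C)))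
        (Q.image fun B => B.image (rk o (hull E C)))
        (S.image (Sym2.map (rk o (hull E C)))) w) ↔ e ∈ T) := by
  constructor
  · intro h e he
    rw [← h, mem_upd]
    exact ⟨fun h1 => ⟨he, h1⟩, fun h1 => h1.2⟩
  · intro h
    ext e
    rw [mem_upd]
    constructor
    · rintro ⟨h1, h2⟩
      exact (h e h1).1 h2
    · intro h1
      exact ⟨hT h1, (h e (hT h1)).2 h1⟩

theorem dm_upd {F : Rule} (hF : KerSpec F) {o : Z → ℕ → I} (ho : Measurable o) {w : Z → I}
    (hw : Measurable w) (E : Finset (Sym2 ℕ)) (C : Finset ℕ) (Q : Finset (Finset ℕ))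
    (S : Finset (Sym2 ℕ)) : DM (fun z => upd F E C Q S (o z) (w z)) := by
  intro T
  have hFz := dm_F hF ho hw (hull E C) E C Q S
  have h1 := dm_map ho (hull E C)
  by_cases hT : T ⊆ inn E C
  · have h2 : {z | upd F E C Q S (o z) (w z) = T} = ⋂ e ∈ inn E C,
        {z | (Sym2.map (rk (o z) (hull E C)) e ∈
      F (E.image (Sym2.map (rk (o z) (hull E C)))) (C.image (rk (o z) (hull E C)))
        (Q.image fun B => B.image (rk (o z) (hull E C)))
        (S.image (Sym2.map (rk (o z) (hull E C)))) (w z)) ↔ e ∈ T} := by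
      ext z
      rw [Set.mem_iInter₂]
      exact upd_iff hT
    rw [h2]
    refine Finset.measurableSet_biInter _ fun e _ => ?_
    exact DM.rel (h1 e) hFz (fun f T' => (f ∈ T') ↔ e ∈ T)
  · have h2 : {z | upd F E C Q S (o z) (w z) = T} = ∅ := by
      ext z
      constructor
      · intro h
        exact absurd (fun e he => (mem_upd.1 (Eq.symm h ▸ he : e ∈ upd F E C Q S (o z) (w z))).1) hT
      · intro h
        exact absurd h (Set.notMem_empty z)
    rw [h2]
    exact MeasurableSet.empty

end

theorem dm_X {F : Rule} (hF : KerSpec F) {Z : Type*} [MeasurableSpace Z]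
    {G : Z → SimpleGraph ℕ} {P : Z → ℕ → ℕ → Finset ℕ} {o : Z → ℕ → I} {u : Z → ℕ → ℕ → I}
    (hG : Measurable G) (hP : ∀ k x, DM (fun z => P z k x)) (ho : Measurable o)
    (hu : Measurable u) (k : ℕ) : ∀ x, DM (fun z => X F (G z) (P z) (o z) (u z) k x) := by
  classical
  induction k with
  | zero => intro x; exact DM.const ∅
  | succ k ih =>
    intro x
    show DM (fun z => upd F (te (G z) (P z (k + 1) x)) (P z (k + 1) x)
      ((P z (k + 1) x).image (P z k)) ((P z (k + 1) x).biUnion (X F (G z) (P z) (o z) (u z) k))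
      (o z) (sel (o z) (u z) (P z (k + 1) x) k))
    refine DM.bind (g := fun C z => upd F (te (G z) C) C (C.image (P z k))
      (C.biUnion (X F (G z) (P z) (o z) (u z) k)) (o z) (sel (o z) (u z) C k)) (hP (k + 1) x)
      fun C => ?_
    refine DM.bind (g := fun E z => upd F E C (C.image (P z k))
      (C.biUnion (X F (G z) (P z) (o z) (u z) k)) (o z) (sel (o z) (u z) C k)) (dm_te hG C)
      fun E => ?_
    refine DM.bind (g := fun Q z => upd F E C Q
      (C.biUnion (X F (G z) (P z) (o z) (u z) k)) (o z) (sel (o z) (u z) C k))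
      (DM.image C fun y _ => hP k y) fun Q => ?_
    refine DM.bind (g := fun S z => upd F E C Q S (o z) (sel (o z) (u z) C k))
      (DM.biUnion C fun y _ => ih y) fun S => ?_
    exact dm_upd hF ho (meas_sel ho hu C k) E C Q S

theorem t_MX : S_MX := by
  intro F hF Z _ G P o u hG hP ho hu
  rw [measurable_set_iff]
  intro e
  refine measurableSet_setOfPred.1 ?_
  have : {z | e ∈ Ph F (G z) (P z) (o z) (u z)} =
      ⋃ k : ℕ, ⋃ x : ℕ, ({_z | x ∈ e} ∩ {z | X F (G z) (P z) (o z) (u z) k x ∈
        {S : Finset (Sym2 ℕ) | e ∈ S}}) := by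
    ext z
    simp only [Set.mem_iUnion, Set.mem_inter_iff, Set.mem_ofPred_eq]
    rfl
  rw [this]
  refine MeasurableSet.iUnion fun k => MeasurableSet.iUnion fun x => ?_
  refine MeasurableSet.inter ?_ (DM.mem (dm_X hF hG hP ho hu k x) _)
  by_cases h : x ∈ e
  · simp [h]
  · simp [h]

end Pool.Agent.J4H89.WU
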