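import Mathlib
import Pool.Agent.J4H89.WU.Fin
import Pool.Agent.J4H89.WU.Lim
import Pool.Agent.J4H89.WU.Mx
import Pool.Agent.J4H63.WU.Ker
import Pool.Agent.J4H63.WU.Str
import Pool.Agent.J4H63.WU.Split
import Pool.Agent.J4H63.WU.Eq
import Pool.Agent.J4H63.WU.Trans
import Pool.Agent.J4H42.WU.Tow
import Pool.Agent.J4H42.WU.Cut
import Pool.Agent.J4H2.WU.Good
import Pool.Agent.J4H2.WU.Rec
import Pool.Agent.J4H2.WU.Walk
import Pool.Agent.J4H17.WU.Idl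
import Pool.Agent.J4H17.WU.Mdl

/-!
# All jobs together
-/

namespace Pool.Agent.J4H89.WU

theorem final.{w} : S_FINAL.{w} :=
  t_FINAL J4H63.WU.t_SPLIT (J4H2.WU.t_GOOD J4H2.WU.t_REC J4H17.WU.t_MDL J4H17.WU.t_IDL)
    (J4H42.WU.t_TOW J4H2.WU.t_WALK J4H42.WU.t_CUT)
    (J4H63.WU.t_KER t_DOM J4H63.WU.t_STR)
    (t_PHI (t_LAW J4H63.WU.t_TRANS)) t_LIM t_MX (J4H17.WU.t_MCELL)
    (J4H63.WU.t_EQ J4H17.WU.t_IDL J4H2.WU.t_WALK)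

end Pool.Agent.J4H89.WU
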