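import Mathlib
import Pool.Agent.J4H89.WU.Bas

/-!
# Exhaustions exist
-/

namespace Pool.Agent.J4H89.WU

theorem sphere_finite {G : SimpleGraph ℕ} {x : ℕ} (hG : LocFin G x) (n : ℕ) :
    {y | ∃ p : G.Walk y x, p.length ≤ n}.Finite := by
  induction n with
  | zero =>
    refine (Set.finite_singleton x).subset ?_
    rintro y ⟨p, hp⟩
    have h1 : p.length = 0 := Nat.le_zero.1 hp
    exact SimpleGraph.Walk.eq_of_length_eq_zero h1
  | succ n ih =>
    have hsub : {y | ∃ p : G.Walk y x, p.length ≤ n + 1} ⊆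
        {x} ∪ ⋃ z ∈ {y | ∃ p : G.Walk y x, p.length ≤ n}, G.neighborSet z := by
      rintro y ⟨p, hp⟩
      cases p with
      | nil => exact Or.inl rfl
      | cons h p =>
        right
        rw [Set.mem_iUnion₂]
        refine ⟨_, ⟨p, ?_⟩, h.symm⟩
        rw [SimpleGraph.Walk.length_cons] at hp
        omega
    refine Set.Finite.subset ?_ hsub
    refine (Set.finite_singleton x).union (ih.biUnion ?_)
    rintro z ⟨p, _⟩
    exact hG z (SimpleGraph.Reachable.symm ⟨p⟩)

theorem t_EXH (G : SimpleGraph ℕ) (x : ℕ) (hG : LocFin G x) :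
    ∃ V : ℕ → Finset ℕ, Exhaustion G x V := by
  refine ⟨fun n => (sphere_finite hG n).toFinset, ?_, ?_, ?_⟩
  · intro m n hmn y hy
    rw [Set.Finite.mem_toFinset] at hy ⊢
    obtain ⟨p, hp⟩ := hy
    exact ⟨p, hp.trans hmn⟩
  · intro n
    rw [Set.Finite.coe_toFinset]
    refine SimpleGraph.induce_connected_of_patches x ⟨SimpleGraph.Walk.nil, by simp⟩ ?_
    rintro v ⟨p, hp⟩
    refine ⟨{w | w ∈ p.support}, ?_, p.end_mem_support, p.start_mem_support, ?_⟩
    · intro w hw
      exact ⟨p.dropUntil w hw, (p.length_dropUntil_le_length hw).trans hp⟩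
    · exact p.connected_induce_support.preconnected _ _
  · ext y
    rw [Set.mem_iUnion]
    constructor
    · rintro ⟨n, hn⟩
      rw [Finset.mem_coe, Set.Finite.mem_toFinset] at hn
      obtain ⟨p, _⟩ := hn
      exact SimpleGraph.Reachable.symm ⟨p⟩
    · intro hy
      obtain ⟨p⟩ := SimpleGraph.Reachable.symm hy
      refine ⟨p.length, ?_⟩
      rw [Finset.mem_coe, Set.Finite.mem_toFinset]
      exact ⟨p, le_rfl⟩

end Pool.Agent.J4H89.WU
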